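import Pool.Agent.Helper980.Polar.Gch

/-!
# Named injections and named large sets

Auxiliary facts on the forcing relation of a preordered set of conditions: the sentence
`AtLeast I B` (there is an injection of `I` into the named set `B`) in semantic terms, and the
pigeonhole arguments which use that the set of the conditions is small.
-/

set_option autoImplicit false

namespace Pool.Agent.U72.Pol

open Cardinal Set Pool.Agent.Helper669.Forcing Pool.Agent.Helper669.K Pool.Agent.Helper980.G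

section

variable {P : Type} [Preorder P]

/-- a sentence of the form `meets N` is forced as soon as it is forced densely below -/
theorem meets_of_dense {N : Set P} {p : P} (h : ∀ q ≤ p, ∃ r ≤ q, r ∈ meets N) :
    p ∈ meets N := by
  intro q hq
  obtain ⟨r, hr, h1⟩ := h q hq
  obtain ⟨s, hs, t, ht, hst⟩ := h1 r le_rfl
  exact ⟨s, hs.trans hr, t, ht, hst⟩

theorem fnot_of_dense {φ : Set P} {p : P} (h : ∀ q ≤ p, ∃ r ≤ q, r ∈ fnot φ)
    (hd : Down φ) : p ∈ fnot φ := by
  intro q hq hq'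
  obtain ⟨r, hr, h1⟩ := h q hq
  exact h1 r le_rfl (hd _ hq' _ hr)

/-- a relation `T` (each `T a x` a downwards closed set of conditions) names an injection from `I`
to the set named by `B`, below the condition `p` -/
structure Inj (p : P) {I X : Type} (T : I → X → Set P) (B : X → Set P) : Prop where
  down : ∀ a x, Down (T a x)
  tot : ∀ a, ∀ q ≤ p, ∃ s ≤ q, ∃ x, s ∈ T a x
  uniq : ∀ s ≤ p, ∀ a x x', s ∈ T a x → s ∈ T a x' → x = x'
  inj : ∀ s ≤ p, ∀ a a' x, s ∈ T a x → s ∈ T a' x → a = a'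
  sub : ∀ s ≤ p, ∀ a x, s ∈ T a x → s ∈ meets (B x)

variable {I X : Type}

theorem Inj.mono {p q : P} (hq : q ≤ p) {T : I → X → Set P} {B : X → Set P} (h : Inj p T B) :
    Inj q T B :=
  ⟨h.down, fun a r hr => h.tot a r (hr.trans hq), fun s hs => h.uniq s (hs.trans hq),
    fun s hs => h.inj s (hs.trans hq), fun s hs => h.sub s (hs.trans hq)⟩

theorem Inj.atLeast {p : P} {T : I → X → Set P} {B : X → Set P} (h : Inj p T B) :
    p ∈ AtLeast I B := by
  refine mem_fex.2 fun q hq => ⟨q, le_rfl, T, ?_, ?_, ?_⟩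
  · refine ⟨fun a => mem_fex.2 fun r hr => ?_, fun a x x' => mem_fimp.2 fun r hr hrr => ?_⟩
    · obtain ⟨s, hs, x, hx⟩ := h.tot a r (hr.trans hq)
      exact ⟨s, hs, x, meets_of_mem hx⟩
    · obtain ⟨s, hs, h1⟩ := exists_of_meets (h.down a x) hrr.1
      obtain ⟨t, ht, h2⟩ := exists_of_meets (h.down a x') (down_meets _ _ hrr.2 _ hs)
      exact ⟨t, ht.trans hs, h.uniq t (ht.trans (hs.trans (hr.trans hq))) a x x'
        (h.down _ _ _ h1 _ ht) h2⟩
  · refine fun a a' x => mem_fimp.2 fun r hr hrr => ?_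
    obtain ⟨s, hs, h1⟩ := exists_of_meets (h.down a x) hrr.1
    obtain ⟨t, ht, h2⟩ := exists_of_meets (h.down a' x) (down_meets _ _ hrr.2 _ hs)
    exact ⟨t, ht.trans hs, h.inj t (ht.trans (hs.trans (hr.trans hq))) a a' x
      (h.down _ _ _ h1 _ ht) h2⟩
  · refine fun a x => mem_fimp.2 fun r hr hrr => ?_
    obtain ⟨s, hs, h1⟩ := exists_of_meets (h.down a x) hrr
    exact ⟨s, hs, h.sub s (hs.trans (hr.trans hq)) a x h1⟩

theorem exists_inj {p : P} {B : X → Set P} (h : p ∈ AtLeast I B) :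
    ∀ q ≤ p, ∃ r ≤ q, ∃ T : I → X → Set P, Inj r T B := by
  intro q hq
  obtain ⟨r, hr, R, h1, h2, h3⟩ := mem_fex.1 h q hq
  refine ⟨r, hr, fun a x => meets (R a x), fun a x => down_meets _, ?_, ?_, ?_, ?_⟩
  · intro a s hs
    obtain ⟨t, ht, x, hx⟩ := mem_fex.1 (h1.1 a) s hs
    exact ⟨t, ht, x, hx⟩
  · intro s hs a x x' hx hx'
    exact IsFun.unique (down_IsFun _ _ h1 _ hs) hx hx'
  · intro s hs a a' x hx hx'
    exact IsInj.eq (down_IsInj _ _ h2 _ hs) hx hx'
  · intro s hs a x hx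
    refine meets_of_dense fun t ht => ?_
    exact mem_fimp.1 (h3 a x) t (ht.trans hs) (down_meets _ _ hx _ ht)

theorem atLeast_of_dense {p : P} {B : X → Set P} (h : ∀ q ≤ p, ∃ r ≤ q, r ∈ AtLeast I B) :
    p ∈ AtLeast I B := by
  refine mem_fex.2 fun q hq => ?_
  obtain ⟨r, hr, h1⟩ := h q hq
  obtain ⟨s, hs, R, h2⟩ := mem_fex.1 h1 r le_rfl
  exact ⟨s, hs.trans hr, R, h2⟩

theorem down_atLeast {B : X → Set P} : Down (AtLeast I B) := down_fex _

theorem atLeast_mono {p : P} {A B : X → Set P} (h : p ∈ AtLeast I A)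
    (hAB : ∀ s ≤ p, ∀ x, s ∈ meets (A x) → s ∈ meets (B x)) : p ∈ AtLeast I B := by
  refine atLeast_of_dense fun q hq => ?_
  obtain ⟨r, hr, T, hT⟩ := exists_inj h q hq
  exact ⟨r, hr, Inj.atLeast ⟨hT.down, hT.tot, hT.uniq, hT.inj, fun s hs a x hx =>
    hAB s (hs.trans (hr.trans hq)) x (hT.sub s hs a x hx)⟩⟩

theorem atLeast_comp {p : P} {J : Type} {A : X → Set P} (h : p ∈ AtLeast I A) (g : J → I)
    (hg : Function.Injective g) : p ∈ AtLeast J A := by
  refine atLeast_of_dense fun q hq => ?_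
  obtain ⟨r, hr, T, hT⟩ := exists_inj h q hq
  exact ⟨r, hr, Inj.atLeast (T := fun a x => T (g a) x) ⟨fun a x => hT.down _ _,
    fun a => hT.tot _, fun s hs a => hT.uniq s hs _,
    fun s hs a a' x h1 h2 => hg (hT.inj s hs _ _ x h1 h2), fun s hs a => hT.sub s hs _⟩⟩

/-- an injection of the ground model -/
theorem atLeast_ground {p : P} {B : X → Set P} (g : I → X) (hg : Function.Injective g)
    (hB : ∀ a, p ∈ meets (B (g a))) : p ∈ AtLeast I B := by
  refine Inj.atLeast (T := fun a x => {_s | g a = x}) ⟨fun a x s hs q hq => hs,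
    fun a q hq => ⟨q, le_rfl, g a, rfl⟩, fun s hs a x x' h1 h2 => h1.symm.trans h2,
    fun s hs a a' x h1 h2 => hg (h1.trans h2.symm), fun s hs a x h => ?_⟩
  have h' : g a = x := h
  rw [← h']
  exact down_meets _ _ (hB a) _ hs

end

end Pool.Agent.U72.Pol
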