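import Pool.Agent.W684.FM.Ambient

/-!
# The number of the conditions of the iteration which forces Martin's axiom
-/

set_option autoImplicit false

namespace Pool.Agent.U72.Pol

open Cardinal Pool.Agent.W684.FM

section

variable (X W : Type)

/-- the shapes of codes -/
def CA : Type :=
  W × (Finset X → ℕ → Prop) ×
    Σ len : Finset X → ℕ → ℕ, ((F : Finset X) → (n : ℕ) → Fin (len F n) → X)

/-- the arities of the shapes -/
def CB (a : CA X W) : Type := Σ F : Finset X, Σ n : ℕ, Fin (a.2.2.1 F n)

variable {X W}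

/-- codes as well-founded trees -/
def toW : Code X W → WType (CB X W)
  | .mk st on len sub val => WType.mk ⟨st, on, ⟨len, val⟩⟩ fun i => toW (sub i.1 i.2.1 i.2.2)

theorem toW_injective : ∀ c c' : Code X W, toW c = toW c' → c = c' := by
  intro c
  induction c with
  | mk st on len sub val ih =>
    intro c' h
    cases c' with
    | mk st' on' len' sub' val' =>
      rw [toW, toW] at h
      injection h with h1 h2
      simp only [Prod.mk.injEq, Sigma.mk.injEq] at h1
      obtain ⟨rfl, rfl, rfl, h3⟩ := h1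
      obtain rfl := eq_of_heq h3
      have h4 := eq_of_heq h2
      have h5 : sub = sub' := by
        funext F n i
        exact ih F n i _ (congrFun h4 ⟨F, n, i⟩)
      rw [h5]

/-- the number of the codes -/
theorem mk_code_le {μ : Cardinal.{0}} (hX : ℵ₀ ≤ #X) (hW : #W ≤ μ) (hμ0 : 2 ^ #X ≤ μ)
    (hμ : μ ^ #X ≤ μ) : #(Code X W) ≤ μ := by
  have hμω : ℵ₀ ≤ μ := hX.trans ((cantor _).le.trans hμ0)
  have hF : #(Finset X) = #X := by
    have : Infinite X := infinite_iff.2 hX
    exact mk_finset_of_infinite X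
  have h0 : #(Finset X × ℕ) = #X := by
    rw [mk_prod, lift_id, lift_id, hF, mk_nat, mul_aleph0_eq hX]
  have hfun : ∀ Z : Type, #Z ≤ μ → #(Finset X → ℕ → Z) ≤ μ := by
    intro Z hZ
    have h1 : #(Finset X → ℕ → Z) = #Z ^ #X := by
      rw [← h0]
      have : (Finset X → ℕ → Z) ≃ (Finset X × ℕ → Z) := (Equiv.curry _ _ _).symm
      rw [this.cardinal_eq]
      simp
    rw [h1]
    exact (power_le_power_right hZ).trans hμ
  have hXμ : #X ≤ μ := (cantor _).le.trans hμ0
  have hval : ∀ len : Finset X → ℕ → ℕ,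
      #((F : Finset X) → (n : ℕ) → Fin (len F n) → X) ≤ μ := by
    intro len
    have h1 : #((F : Finset X) → (n : ℕ) → Fin (len F n) → X) ≤ #(Finset X → ℕ → (ℕ → Option X)) := by
      refine mk_le_of_injective
        (f := fun g F n i => if h : i < len F n then some (g F n ⟨i, h⟩) else none) ?_
      intro g g' h
      funext F n i
      have h2 := congrFun (congrFun (congrFun h F) n) i.1
      simp only [i.2, dif_pos, Option.some.injEq] at h2
      exact h2
    refine h1.trans (hfun _ ?_)
    have h2 : #(ℕ → Option X) = #(Option X) ^ ℵ₀ := by simp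
    rw [h2]
    have h3 : #(Option X) ≤ #X := by
      rw [mk_option, add_one_eq hX]
    refine (power_le_power_right h3).trans ((power_le_power_right hXμ).trans ?_)
    exact (power_le_power_left (aleph0_pos.trans_le hμω).ne' hX).trans hμ
  have hCA : #(CA X W) ≤ μ := by
    have h1 : #(CA X W) = #W * (#(Finset X → ℕ → Prop) *
        Cardinal.sum fun len : Finset X → ℕ → ℕ =>
          #((F : Finset X) → (n : ℕ) → Fin (len F n) → X)) := by
      unfold CA
      rw [mk_prod, mk_prod, mk_sigma]
      simp only [lift_id]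
    rw [h1]
    refine mul_le_of_le hμω hW (mul_le_of_le hμω (hfun _ ?_) ?_)
    · exact (mk_le_aleph0).trans hμω
    · refine (sum_le_sum _ _ hval).trans ?_
      rw [sum_const']
      exact mul_le_of_le hμω (hfun _ (mk_nat.le.trans hμω)) le_rfl
  have hCB : ∀ a : CA X W, #(CB X W a) ≤ #X := by
    intro a
    rw [← h0]
    have h1 : #(CB X W a) ≤ #((Finset X × ℕ) × ℕ) :=
      mk_le_of_injective (f := fun i => ((i.1, i.2.1), i.2.2.1)) (by
        rintro ⟨F, n, i⟩ ⟨F', n', i'⟩ h
        simp only [Prod.mk.injEq] at h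
        obtain ⟨⟨rfl, rfl⟩, h⟩ := h
        obtain rfl := Fin.ext h
        rfl)
    refine h1.trans ?_
    rw [mk_prod (Finset X × ℕ), lift_id, lift_id, h0, mk_nat, mul_aleph0_eq hX]
  refine (mk_le_of_injective (f := toW) fun c c' => toW_injective c c').trans ?_
  refine WType.cardinalMk_le_of_le' ?_
  simp only [lift_id]
  have h1 : ∀ a : CA X W, μ ^ #(CB X W a) ≤ μ := fun a =>
    (power_le_power_left (aleph0_pos.trans_le hμω).ne' (hCB a)).trans hμ
  refine (sum_le_sum _ _ h1).trans ?_
  rw [sum_const']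
  exact mul_le_of_le hμω hCA le_rfl

theorem mk_PP_le [LinearOrder W] [WellFoundedLT W] {μ : Cardinal.{0}} (hX : ℵ₀ ≤ #X) (hW : #W ≤ μ)
    (hμ0 : 2 ^ #X ≤ μ) (hμ : μ ^ #X ≤ μ) : #(PP X W) ≤ μ := by
  have hμω : ℵ₀ ≤ μ := hX.trans ((cantor _).le.trans hμ0)
  have hXμ : #X ≤ μ := (cantor _).le.trans hμ0
  have h1 : #(Code X W × X) ≤ μ := by
    rw [mk_prod, lift_id, lift_id]
    exact mul_le_of_le hμω (mk_code_le hX hW hμ0 hμ) hXμ
  have h2 : #(Cond X W) ≤ μ := by
    rcases finite_or_infinite (Code X W × X) with hfin | hinf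
    · exact mk_le_aleph0.trans hμω
    · rw [mk_finset_of_infinite]
      exact h1
  exact (mk_subtype_le _).trans h2

end

end Pool.Agent.U72.Pol
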