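import Pool.Agent.U72.Pol.Core

/-!
# Chang's transfer property and families of functions
-/

set_option autoImplicit false

namespace Pool.Agent.U72.Pol

open Cardinal Set

/-- The well-ordered set of order type `κ`. -/
abbrev Kx (κ : Cardinal.{0}) : Type := κ.ord.ToType

/-- The well-ordered set of order type `κ⁺`. -/
abbrev Sx (κ : Cardinal.{0}) : Type := (Order.succ κ).ord.ToType

/-- Chang's transfer property `(κ⁺, κ) ↠ (τ⁺, τ)`: for every function `F` from finite sequences
of elements of `κ⁺` to `κ⁺` some subset `X` of `κ⁺` is closed under `F`, has cardinality `τ⁺`, and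
`X ∩ κ` has cardinality `τ`. -/
def Chang (κ τ : Cardinal.{0}) : Prop :=
  ∀ F : List (Sx κ) → Sx κ, ∃ X : Set (Sx κ),
    (∀ l : List (Sx κ), (∀ x ∈ l, x ∈ X) → F l ∈ X) ∧
    #X = Order.succ τ ∧ #{x | x ∈ X ∧ #(Iio x) < κ} = τ

/-- The pseudointersection number is larger than `ℵ₁`: for every family of at most `ℵ₁` sets of
natural numbers in which all finite intersections are infinite there is an infinite set which is
almost contained in all members of the family. -/
def PseudoInt : Prop :=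
  ∀ F : Set (Set ℕ), #F ≤ ℵ₁ →
    (∀ t : Finset (Set ℕ), (t : Set (Set ℕ)) ⊆ F → (⋂₀ (t : Set (Set ℕ))).Infinite) →
    ∃ E : Set ℕ, E.Infinite ∧ ∀ T ∈ F, (E \ T).Finite

variable {κ : Cardinal.{0}}

theorem mk_Kx : #(Kx κ) = κ := mk_ord_toType _

theorem mk_Sx : #(Sx κ) = Order.succ κ := mk_ord_toType _

theorem mk_Iio_ord {c : Cardinal.{0}} (i : c.ord.ToType) : #(Iio i) < c := by
  simpa using mk_Iio_lt i

theorem exists_emb (κ : Cardinal.{0}) :
    ∃ g : Kx κ → Sx κ, Function.Injective g ∧ ∀ v, #(Iio (g v)) < κ := by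
  have h : κ.ord ≤ (Order.succ κ).ord := ord_le_ord.2 (Order.le_succ κ)
  rw [← Ordinal.type_toType κ.ord, ← Ordinal.type_toType (Order.succ κ).ord,
    Ordinal.type_le_iff] at h
  obtain ⟨f⟩ := h
  refine ⟨f, f.injective, fun v => ?_⟩
  rw [← InitialSeg.image_Iio]
  exact mk_image_le.trans_lt (mk_Iio_ord v)

/-- Chang's transfer property for countably many functions from finite sequences of elements of
`κ⁺` to sets with at most `κ` elements -/
theorem chang_family (hC : Chang κ ℵ₀) (Z : ℕ → Type) (hZ : ∀ n, #(Z n) ≤ κ)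
    (G : ∀ n, List (Sx κ) → Z n) :
    ∃ X : Set (Sx κ), #X = ℵ₁ ∧
      ∀ n, {z | ∃ l : List (Sx κ), (∀ a ∈ l, a ∈ X) ∧ G n l = z}.Countable := by
  classical
  obtain ⟨g, hg, hgs⟩ := exists_emb κ
  have hj : ∀ n, Nonempty (Z n ↪ Kx κ) := fun n => by
    rw [← Cardinal.le_def, mk_Kx]
    exact hZ n
  let j : ∀ n, Z n ↪ Kx κ := fun n => (hj n).some
  obtain ⟨X, hX1, hX2, hX3⟩ := hC fun l =>
    g (j (Nat.unpair l.length).1 (G (Nat.unpair l.length).1 (l.take (Nat.unpair l.length).2)))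
  refine ⟨X, hX2.trans succ_aleph0, fun n => ?_⟩
  have hX0 : X.Nonempty := by
    rw [← nonempty_coe_sort, ← mk_ne_zero_iff, hX2]
    exact (bot_le.trans_lt (Order.lt_succ ℵ₀)).ne'
  obtain ⟨x0, hx0⟩ := hX0
  have hcount : {x | x ∈ X ∧ #(Iio x) < κ}.Countable := le_aleph0_iff_set_countable.1 hX3.le
  refine (hcount.preimage (f := fun z => g (j n z)) ?_).mono ?_
  · exact hg.comp (j n).injective
  · rintro z ⟨l, hl, rfl⟩
    have h1 := hX1 (l ++ List.replicate (Nat.pair n l.length - l.length) x0) (fun a ha => by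
      rw [List.mem_append] at ha
      rcases ha with ha | ha
      · exact hl a ha
      · rw [List.eq_of_mem_replicate ha]
        exact hx0)
    have h2 : (l ++ List.replicate (Nat.pair n l.length - l.length) x0).length =
        Nat.pair n l.length := by
      rw [List.length_append, List.length_replicate]
      have := Nat.right_le_pair n l.length
      omega
    rw [h2, Nat.unpair_pair] at h1
    simp only [List.take_left'] at h1
    exact ⟨h1, hgs _⟩

/-- an infinite set on which a height function is finite-to-one, contained in many members of a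
family -/
theorem exists_pseudo (hp : PseudoInt) {Τ X : Type} [Countable Τ] (hX : #X = ℵ₁) (ht : Τ → ℕ)
    (T : X → Set Τ) (h : ∀ (b : Finset X) (m : ℕ), ∃ t, m ≤ ht t ∧ ∀ α ∈ b, t ∈ T α) :
    ∃ (E : Set Τ) (Y : Set X), #Y = ℵ₁ ∧ (∀ m, ∃ t ∈ E, m ≤ ht t) ∧ ∀ α ∈ Y, E ⊆ T α := by
  classical
  obtain ⟨f, hf⟩ := exists_injective_nat Τ
  let A : X → Set ℕ := fun α => f '' T α
  let B : ℕ → Set ℕ := fun m => f '' {t | m ≤ ht t}
  obtain ⟨E, hE, hET⟩ := hp (range A ∪ range B) (by
      refine (mk_union_le _ _).trans (add_le_of_le (aleph0_le_aleph 1) (mk_range_le.trans hX.le) ?_)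
      refine mk_range_le.trans ?_
      rw [mk_nat]
      exact aleph0_le_aleph 1) (by
    intro t htt
    -- the finitely many indices
    obtain ⟨b, m, hbm⟩ : ∃ (b : Finset X) (m : ℕ), ∀ s ∈ t, (∃ α ∈ b, s = A α) ∨
        ∃ n ≤ m, s = B n := by
      induction t using Finset.induction with
      | empty => exact ⟨∅, 0, fun s hs => by simp at hs⟩
      | insert a t _ ih =>
        obtain ⟨b, m, hbm⟩ := ih (fun s hs => htt (by
          rw [Finset.coe_insert]
          exact Set.mem_insert_of_mem _ hs))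
        rcases htt (Finset.mem_coe.2 (Finset.mem_insert_self a t)) with ⟨α, hα⟩ | ⟨n, hn⟩
        · refine ⟨insert α b, m, fun s hs => ?_⟩
          rcases Finset.mem_insert.1 hs with rfl | hs
          · exact Or.inl ⟨α, Finset.mem_insert_self _ _, hα.symm⟩
          · rcases hbm s hs with ⟨β, hβ, h1⟩ | h1
            · exact Or.inl ⟨β, Finset.mem_insert_of_mem hβ, h1⟩
            · exact Or.inr h1
        · refine ⟨b, max m n, fun s hs => ?_⟩
          rcases Finset.mem_insert.1 hs with rfl | hs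
          · exact Or.inr ⟨n, le_max_right _ _, hn.symm⟩
          · rcases hbm s hs with h1 | ⟨k, hk, h1⟩
            · exact Or.inl h1
            · exact Or.inr ⟨k, hk.trans (le_max_left _ _), h1⟩
    have h1 : f '' {t | m ≤ ht t ∧ ∀ α ∈ b, t ∈ T α} ⊆ ⋂₀ (t : Set (Set ℕ)) := by
      rintro _ ⟨x, ⟨hx1, hx2⟩, rfl⟩ s hs
      rcases hbm s hs with ⟨α, hα, rfl⟩ | ⟨n, hn, rfl⟩
      · exact ⟨x, hx2 α hα, rfl⟩
      · exact ⟨x, hn.trans hx1, rfl⟩
    refine Set.Infinite.mono h1 (Set.Infinite.image hf.injOn ?_)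
    intro hfin
    obtain ⟨M, hM⟩ := (hfin.image ht).bddAbove
    obtain ⟨x, hx1, hx2⟩ := h b (max m (M + 1))
    have h2 := hM ⟨x, ⟨(le_max_left _ _).trans hx1, hx2⟩, rfl⟩
    have h3 := (le_max_right _ _).trans hx1
    omega)
  -- an uncountable subfamily with the same finite set of exceptions
  have hfin : ∀ α : X, {t : Τ | f t ∈ E ∧ t ∉ T α}.Finite := by
    intro α
    refine Set.Finite.of_finite_image ((hET (A α) (Or.inl ⟨α, rfl⟩)).subset ?_) hf.injOn
    rintro _ ⟨t, ⟨h1, h2⟩, rfl⟩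
    refine ⟨h1, ?_⟩
    rintro ⟨t', h3, h4⟩
    rw [hf h4] at h3
    exact h2 h3
  have hreg : (ℵ₁ : Cardinal.{0}).IsRegular := isRegular_aleph_one
  obtain ⟨F0, hF0⟩ := infinite_pigeonhole_card (fun α : X => (hfin α).toFinset) ℵ₁ hX.ge
    (aleph0_le_aleph 1) (by
      rw [hreg.cof_ord]
      exact mk_le_aleph0.trans_lt aleph0_lt_aleph_one)
  refine ⟨{t | f t ∈ E ∧ t ∉ F0}, (fun α : X => (hfin α).toFinset) ⁻¹' {F0}, ?_, ?_, ?_⟩
  · refine le_antisymm ?_ hF0
    exact (mk_set_le _).trans hX.le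
  · intro m
    have h1 : (E \ B m).Finite := hET (B m) (Or.inr ⟨m, rfl⟩)
    have h2 : (E \ ((E \ B m) ∪ f '' (F0 : Set Τ))).Infinite :=
      hE.sdiff (h1.union (F0.finite_toSet.image f))
    obtain ⟨x, hx⟩ := h2.nonempty
    have h3 : x ∈ B m := by
      by_contra hc
      exact hx.2 (Or.inl ⟨hx.1, hc⟩)
    obtain ⟨t, ht1, rfl⟩ := h3
    exact ⟨t, ⟨hx.1, fun h4 => hx.2 (Or.inr ⟨t, Finset.mem_coe.2 h4, rfl⟩)⟩, ht1⟩
  · intro α hα t ht1
    have h1 : (hfin α).toFinset = F0 := hα
    by_contra hc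
    apply ht1.2
    rw [← h1, Set.Finite.mem_toFinset]
    exact ⟨ht1.1, hc⟩

end Pool.Agent.U72.Pol
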