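import Pool.Agent.U72.Pol.Base

/-!
# Large intersections, below a condition which forces that the first alternative fails
-/

set_option autoImplicit false

namespace Pool.Agent.U72.Pol

open Cardinal Set Pool.Agent.Helper669.Forcing Pool.Agent.Helper669.K Pool.Agent.Helper980.G

section

variable {P : Type} [Preorder P] {K S : Type}

/-- the named set `A ∩ X_α` -/
def cap (A : K → Set P) (c : K → S → Set P) (α : S) : K → Set P :=
  fun x => {s | s ∈ meets (A x) ∧ s ∈ meets (c x α)}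

/-- the named set `⋂_{α ∈ b} X_α` -/
def inter (c : K → S → Set P) (b : Set S) : K → Set P :=
  fun x => {s | ∀ α ∈ b, s ∈ meets (c x α)}

theorem mem_meets_cap {A : K → Set P} {c : K → S → Set P} {α : S} {s : P} {x : K} :
    s ∈ meets (cap A c α x) ↔ s ∈ meets (A x) ∧ s ∈ meets (c x α) := by
  have hd : Down (cap A c α x) := fun t ht u hu =>
    ⟨down_meets _ _ ht.1 _ hu, down_meets _ _ ht.2 _ hu⟩
  constructor
  · intro h
    refine ⟨meets_of_dense fun q hq => ?_, meets_of_dense fun q hq => ?_⟩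
    · obtain ⟨t, ht, h1⟩ := exists_of_meets hd (down_meets _ _ h _ hq)
      exact ⟨t, ht, h1.1⟩
    · obtain ⟨t, ht, h1⟩ := exists_of_meets hd (down_meets _ _ h _ hq)
      exact ⟨t, ht, h1.2⟩
  · exact fun h => meets_of_mem h

theorem mem_meets_inter {c : K → S → Set P} {b : Set S} {s : P} {x : K} :
    s ∈ meets (inter c b x) ↔ ∀ α ∈ b, s ∈ meets (c x α) := by
  have hd : Down (inter c b x) := fun t ht u hu α hα => down_meets _ _ (ht α hα) _ hu
  constructor
  · intro h α hα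
    refine meets_of_dense fun q hq => ?_
    obtain ⟨t, ht, h1⟩ := exists_of_meets hd (down_meets _ _ h _ hq)
    exact ⟨t, ht, h1 α hα⟩
  · exact fun h => meets_of_mem h

/-- `p0` forces that for no set `A` with at least `|K|` elements there are `κ⁺` many `α` (in a
ground model set) with `A ∩ X_α = ∅` -/
def NoProd (κ : Cardinal.{0}) (p0 : P) (c : K → S → Set P) : Prop :=
  ∀ r ≤ p0, ∀ A : K → Set P, r ∈ AtLeast K A → ∀ B : Set S, Order.succ κ ≤ #B →
    ∃ α ∈ B, ∃ x, ∃ q ≤ r, q ∈ meets (A x) ∧ q ∈ meets (c x α)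

variable {κ : Cardinal.{0}}

theorem bad_small [LinearOrder K] [WellFoundedLT K] (hκ : ℵ₀ ≤ κ) (hK : #K = κ) (hP : #P ≤ κ)
    {p0 : P} {c : K → S → Set P} (hno : NoProd κ p0 c) {r : P} (hr : r ≤ p0) {A : K → Set P}
    (hA : r ∈ AtLeast K A) :
    #{α : S | ∃ q ≤ r, q ∈ fnot (AtLeast K (cap A c α))} ≤ κ := by
  classical
  by_contra hcon
  rw [not_le] at hcon
  have hreg : (Order.succ κ).IsRegular := isRegular_succ hκ
  have hκs : ℵ₀ ≤ Order.succ κ := hκ.trans (Order.le_succ κ)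
  have hq : ∀ α : {α : S | ∃ q ≤ r, q ∈ fnot (AtLeast K (cap A c α))},
    ∃ q ≤ r, q ∈ fnot (AtLeast K (cap A c α.1)) := fun α => α.2
  choose q hqr hq using hq
  obtain ⟨q0, hq0⟩ := infinite_pigeonhole_card q (Order.succ κ) (Order.succ_le_of_lt hcon) hκs
    (by rw [hreg.cof_ord]; exact hP.trans_lt (Order.lt_succ κ))
  have hne : (q ⁻¹' {q0}).Nonempty := by
    rw [← nonempty_coe_sort, ← mk_ne_zero_iff]
    exact (aleph0_pos.trans_le (hκs.trans hq0)).ne'
  obtain ⟨α0, hα0⟩ := hne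
  have hα0' : q α0 = q0 := hα0
  have hq0r : q0 ≤ r := hα0' ▸ hqr α0
  obtain ⟨q1, hq1, R, hR⟩ := exists_inj hA q0 hq0r
  obtain ⟨e⟩ : Nonempty (K × K ≃ K) := by
    rw [← Cardinal.eq, mk_prod, lift_id, hK, mul_eq_self hκ]
  let Ai : K → K → Set P := fun i x => {s | ∃ k, s ∈ R (e (i, k)) x}
  have hAid : ∀ i x, Down (Ai i x) := fun i x s ⟨k, hk⟩ t ht => ⟨k, hR.down _ _ _ hk _ ht⟩
  have hAi : ∀ i, q1 ∈ AtLeast K (Ai i) := fun i =>
    Inj.atLeast (T := fun k x => R (e (i, k)) x) ⟨fun _ _ => hR.down _ _, fun k => hR.tot _,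
      fun s hs k => hR.uniq s hs _, fun s hs k k' x h1 h2 => by
        have := e.injective (hR.inj s hs _ _ x h1 h2)
        exact congrArg Prod.snd this,
      fun s hs k x h => meets_of_mem ⟨k, h⟩⟩
  have key : ∀ α : q ⁻¹' {q0}, ∃ i, ∃ q' ≤ q1, ∀ x, ∀ s ≤ q',
      ¬ (s ∈ meets (Ai i x) ∧ s ∈ meets (c x α.1.1)) := by
    intro α
    by_contra hc
    push Not at hc
    have hin : q1 ∈ AtLeast K (cap A c α.1.1) := by
      refine Inj.atLeast (T := fun i x => {s | s ∈ meets (Ai i x) ∧ s ∈ meets (c x α.1.1) ∧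
        ∀ y < x, ∀ t ≤ s, ¬ (t ∈ meets (Ai i y) ∧ t ∈ meets (c y α.1.1))}) ⟨?_, ?_, ?_, ?_, ?_⟩
      · rintro i x s ⟨h1, h2, h3⟩ t ht
        exact ⟨down_meets _ _ h1 _ ht, down_meets _ _ h2 _ ht, fun y hy u hu =>
          h3 y hy u (hu.trans ht)⟩
      · intro i q' hq'
        let W : Set K := {x | ∃ s ≤ q', s ∈ meets (Ai i x) ∧ s ∈ meets (c x α.1.1)}
        have hW : W.Nonempty := by
          obtain ⟨x, s, hs, h⟩ := hc i q' hq'
          exact ⟨x, s, hs, h⟩
        obtain ⟨s, hs, h1, h2⟩ := wellFounded_lt.min_mem W hW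
        refine ⟨s, hs, wellFounded_lt.min W hW, h1, h2, fun y hy t ht h3 => ?_⟩
        exact wellFounded_lt.not_lt_min W (x := y) ⟨t, ht.trans hs, h3⟩ hy
      · rintro s hs i x x' ⟨h1, h2, h3⟩ ⟨h1', h2', h3'⟩
        rcases lt_trichotomy x x' with h | h | h
        · exact (h3' x h s le_rfl ⟨h1, h2⟩).elim
        · exact h
        · exact (h3 x' h s le_rfl ⟨h1', h2'⟩).elim
      · rintro s hs i i' x ⟨h1, -, -⟩ ⟨h2, -, -⟩
        obtain ⟨t, ht, k, hk⟩ := exists_of_meets (hAid _ _) h1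
        obtain ⟨u, hu, k', hk'⟩ := exists_of_meets (hAid _ _) (down_meets _ _ h2 _ ht)
        have := e.injective (hR.inj u (hu.trans (ht.trans hs)) _ _ x (hR.down _ _ _ hk _ hu) hk')
        exact congrArg Prod.fst this
      · rintro s hs i x ⟨h1, h2, -⟩
        refine mem_meets_cap.2 ⟨meets_of_dense fun t ht => ?_, h2⟩
        obtain ⟨u, hu, k, hk⟩ := exists_of_meets (hAid _ _) (down_meets _ _ h1 _ ht)
        exact ⟨u, hu, hR.sub u (hu.trans (ht.trans hs)) _ x hk⟩
    have h5 : q α.1 = q0 := α.2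
    exact hq α.1 q1 (hq1.trans h5.ge) hin
  choose i q' hq' hiq using key
  obtain ⟨⟨i0, q2⟩, h6⟩ := infinite_pigeonhole_card (fun α => (i α, q' α)) (Order.succ κ) hq0 hκs
    (by
      rw [hreg.cof_ord, mk_prod, lift_id, lift_id, hK]
      exact (mul_le_of_le hκ le_rfl hP).trans_lt (Order.lt_succ κ))
  have h7 : ∀ α ∈ (fun α => (i α, q' α)) ⁻¹' {(i0, q2)}, i α = i0 ∧ q' α = q2 := by
    intro α hα
    have h8 : (i α, q' α) = (i0, q2) := hα
    exact ⟨congrArg Prod.fst h8, congrArg Prod.snd h8⟩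
  have hne2 : ((fun α => (i α, q' α)) ⁻¹' {(i0, q2)}).Nonempty := by
    rw [← nonempty_coe_sort, ← mk_ne_zero_iff]
    exact (aleph0_pos.trans_le (hκs.trans h6)).ne'
  obtain ⟨α1, hα1⟩ := hne2
  have hq2 : q2 ≤ q1 := (h7 α1 hα1).2 ▸ hq' α1
  let B : Set S := (fun α : q ⁻¹' {q0} => α.1.1) '' ((fun α => (i α, q' α)) ⁻¹' {(i0, q2)})
  have hB : Order.succ κ ≤ #B := by
    rw [mk_image_eq (fun a b h => Subtype.ext (Subtype.ext h))]
    exact h6
  obtain ⟨α, ⟨β, hβ, rfl⟩, x, s, hs, h8, h9⟩ := hno q2 (hq2.trans (hq1.trans (hq0r.trans hr)))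
    (Ai i0) (down_atLeast _ (hAi i0) _ hq2) B hB
  obtain ⟨h10, h11⟩ := h7 β hβ
  exact hiq β x s (h11 ▸ hs) ⟨h10 ▸ h8, h9⟩

/-- Some set of `κ⁺` many `α` is such that the intersection of finitely many sets `X_α` is always
forced to be large. -/
theorem exists_good [LinearOrder K] [WellFoundedLT K] (hκ : ℵ₀ ≤ κ) (hK : #K = κ)
    (hS : Order.succ κ ≤ #S) (hP : #P ≤ κ) {p0 : P} {c : K → S → Set P}
    (hno : NoProd κ p0 c) :
    ∃ G : Set S, Order.succ κ ≤ #G ∧ ∀ b : Finset S, (b : Set S) ⊆ G →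
      p0 ∈ AtLeast K (inter c (b : Set S)) := by
  classical
  have h0 : p0 ∈ AtLeast K (inter c ((∅ : Finset S) : Set S)) :=
    atLeast_ground (fun x => x) (fun _ _ h => h) fun x => mem_meets_inter.2 fun α hα => by
      simp at hα
  obtain ⟨G, hG⟩ := zorn_subset {G : Set S | ∀ b : Finset S, (b : Set S) ⊆ G →
    p0 ∈ AtLeast K (inter c (b : Set S))} (by
      intro ch hch hchain
      rcases ch.eq_empty_or_nonempty with he | hne
      · refine ⟨∅, fun b hb => ?_, fun s hs => by rw [he] at hs; exact hs.elim⟩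
        have : b = ∅ := by
          rw [← Finset.coe_eq_empty]
          exact Set.subset_empty_iff.1 hb
        rw [this]
        exact h0
      · refine ⟨⋃₀ ch, fun b hb => ?_, fun s hs => Set.subset_sUnion_of_mem hs⟩
        obtain ⟨s, hs, hbs⟩ := (hchain.directedOn).exists_mem_subset_of_finset_subset_biUnion
          (f := id) hne (by simpa [Set.sUnion_eq_biUnion] using hb)
        exact hch hs b hbs)
  refine ⟨G, ?_, hG.prop⟩
  by_contra hcon
  rw [not_le, Order.lt_succ_iff] at hcon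
  -- the bad sets
  have h1 : ∀ b : Finset G, #{α : S | ∃ q ≤ p0, q ∈ fnot (AtLeast K
      (cap (inter c ((b.map (Function.Embedding.subtype _) : Finset S) : Set S)) c α))} ≤ κ :=
    fun b => bad_small hκ hK hP hno le_rfl (hG.prop _ (by
      intro x hx
      simp only [Finset.coe_map, Function.Embedding.subtype_apply, Set.mem_image,
        Finset.mem_coe] at hx
      obtain ⟨y, _, rfl⟩ := hx
      exact y.2))
  have h2 : #(G ∪ ⋃ b : Finset G, {α : S | ∃ q ≤ p0, q ∈ fnot (AtLeast K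
      (cap (inter c ((b.map (Function.Embedding.subtype _) : Finset S) : Set S)) c α))} : Set S) ≤
        κ := by
    refine (mk_union_le _ _).trans (add_le_of_le hκ hcon ?_)
    refine (mk_iUnion_le_sum_mk.trans (sum_le_mk_mul_iSup _)).trans ?_
    refine mul_le_of_le hκ ?_ (ciSup_le' h1)
    rcases finite_or_infinite G with hfin | hinf
    · exact (mk_le_aleph0).trans hκ
    · rw [mk_finset_of_infinite]
      exact hcon
  obtain ⟨α, hα⟩ : ∃ α : S, α ∉ (G ∪ ⋃ b : Finset G, {α : S | ∃ q ≤ p0, q ∈ fnot (AtLeast K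
      (cap (inter c ((b.map (Function.Embedding.subtype _) : Finset S) : Set S)) c α))} :
        Set S) := by
    by_contra hc
    push Not at hc
    have h3 := mk_le_mk_of_subset (fun x _ => hc x : (Set.univ : Set S) ⊆ _)
    rw [mk_univ] at h3
    exact absurd (hS.trans (h3.trans h2)) (not_le.2 (Order.lt_succ κ))
  rw [mem_union, mem_iUnion, not_or, not_exists] at hα
  have h4 : insert α G ∈ {G : Set S | ∀ b : Finset S, (b : Set S) ⊆ G →
      p0 ∈ AtLeast K (inter c (b : Set S))} := by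
    intro b hb
    let b' : Finset G := (b.erase α).subtype (· ∈ G)
    have hb' : (b'.map (Function.Embedding.subtype _) : Finset S) = b.erase α := by
      rw [Finset.subtype_map]
      refine Finset.filter_true_of_mem fun x hx => ?_
      rcases hb (Finset.mem_coe.2 (Finset.mem_of_mem_erase hx)) with h | h
      · exact absurd h (Finset.ne_of_mem_erase hx)
      · exact h
    have h5 := hα.2 b'
    rw [hb'] at h5
    have h6 : p0 ∈ AtLeast K (cap (inter c ((b.erase α : Finset S) : Set S)) c α) := by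
      refine atLeast_of_dense fun q hq => ?_
      by_contra hc
      push Not at hc
      exact h5 ⟨q, hq, fun r hr h => hc r hr h⟩
    refine atLeast_mono h6 fun s _ x hx => ?_
    rw [mem_meets_cap, mem_meets_inter] at hx
    rw [mem_meets_inter]
    intro β hβ
    by_cases h7 : β = α
    · rw [h7]
      exact hx.2
    · exact hx.1 β (Finset.mem_coe.2 (Finset.mem_erase.2 ⟨h7, hβ⟩))
  exact hα.1 (hG.le_of_ge h4 (Set.subset_insert α G) (Set.mem_insert α G))

/-- A named set with at least `|K|` elements has large traces on the levels. -/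
theorem dense_level {M : Type} (hκ : ℵ₀ < κ) (hK : #K = κ) (hP : #P < κ) (hM : #M < κ)
    (lev : K → ℕ) {A : K → Set P} {p : P} (hA : p ∈ AtLeast K A) :
    ∀ q ≤ p, ∃ r ≤ q, ∃ n, r ∈ AtLeast M (fun x : {x : K // lev x = n} => A x.1) := by
  classical
  intro q hq
  obtain ⟨q1, hq1, R, hR⟩ := exists_inj hA q hq
  have h1 : ∀ k : K, ∃ s ≤ q1, ∃ x, s ∈ R k x := fun k => hR.tot k q1 le_rfl
  choose s hs x hx using h1
  obtain ⟨⟨s0, n⟩, h2⟩ : ∃ a : P × ℕ, #M ≤ #((fun k => (s k, lev (x k))) ⁻¹' {a}) := by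
    by_contra hc
    push Not at hc
    have h3 : (Set.univ : Set K) ⊆ ⋃ a : P × ℕ, (fun k => (s k, lev (x k))) ⁻¹' {a} :=
      fun k _ => mem_iUnion.2 ⟨(s k, lev (x k)), rfl⟩
    have h4 := mk_le_mk_of_subset h3
    rw [mk_univ, hK] at h4
    have h5 : κ ≤ #(P × ℕ) * #M := by
      refine h4.trans ((mk_iUnion_le_sum_mk.trans (sum_le_mk_mul_iSup _)).trans ?_)
      exact mul_le_mul' le_rfl (ciSup_le' fun a => (hc a).le)
    have h6 : #(P × ℕ) * #M < κ := by
      refine mul_lt_of_lt hκ.le ?_ hM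
      rw [mk_prod, lift_id, lift_id]
      exact mul_lt_of_lt hκ.le hP (by simpa using hκ)
    exact absurd h5 (not_le.2 h6)
  obtain ⟨g⟩ := h2
  have hg : ∀ m : M, s (g m).1 = s0 ∧ lev (x (g m).1) = n := by
    intro m
    have h3 : (s (g m).1, lev (x (g m).1)) = (s0, n) := (g m).2
    exact ⟨congrArg Prod.fst h3, congrArg Prod.snd h3⟩
  rcases isEmpty_or_nonempty M with hE | ⟨⟨m0⟩⟩
  · exact ⟨q1, hq1, 0, atLeast_ground (fun m => (hE.false m).elim) (fun m => (hE.false m).elim)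
      (fun m => (hE.false m).elim)⟩
  have hs0 : s0 ≤ q1 := (hg m0).1 ▸ hs _
  refine ⟨s0, hs0.trans hq1, n, atLeast_ground (fun m => ⟨x (g m).1, (hg m).2⟩) ?_ ?_⟩
  · intro m m' h
    have h3 : x (g m).1 = x (g m').1 := congrArg Subtype.val h
    have h4 := hx (g m).1
    have h5 := hx (g m').1
    rw [(hg m).1, h3] at h4
    rw [(hg m').1] at h5
    exact g.injective (Subtype.ext (hR.inj s0 hs0 _ _ _ h4 h5))
  · intro m
    have h4 := hx (g m).1
    rw [(hg m).1] at h4
    exact hR.sub s0 hs0 _ _ h4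

/-- a named injection bounds the cardinality -/
theorem le_of_atLeast {M X : Type} {B : X → Set P} {p : P} (h : p ∈ AtLeast M B) :
    #M ≤ #P * #X := by
  obtain ⟨q, hq, T, hT⟩ := exists_inj h p le_rfl
  have h1 : ∀ m : M, ∃ s ≤ q, ∃ x, s ∈ T m x := fun k => hT.tot k q le_rfl
  choose s hs x hx using h1
  have h2 : Function.Injective fun m => (s m, x m) := by
    intro m m' h
    have h3 : s m = s m' := congrArg Prod.fst h
    have h4 : x m = x m' := congrArg Prod.snd h
    have h5 := hx m'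
    rw [← h3, ← h4] at h5
    exact hT.inj _ (hs m) _ _ _ (hx m) h5
  have h3 := mk_le_of_injective h2
  rwa [mk_prod, lift_id, lift_id] at h3

end

end Pool.Agent.U72.Pol
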