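import Pool.Agent.U72.Pol.Name

/-!
# The polarized relation in the extension by the product of a `σ`-closed and a ccc preorder
-/

set_option autoImplicit false

namespace Pool.Agent.U72.Pol

open Cardinal Set Pool.Agent.Helper669.Forcing Pool.Agent.Helper669.K Pool.Agent.Helper980.G
open Pool.Agent.W684.FM (PCCC Om1 MartinHolds)

/-- one name for an injection which works below all conditions forcing that there is one -/
theorem exists_full {P : Type} [Preorder P] (M : Type) {X : Type} (B : X → Set P) :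
    ∃ J : M → X → Set P, ∀ s, s ∈ AtLeast M B → Inj s J B := by
  classical
  obtain ⟨Z, hZ1, hZ2, hZ3⟩ := exists_antichain {p : P | ∃ T : M → X → Set P, Inj p T B}
  have h1 : ∀ z : Z, ∃ T : M → X → Set P, Inj z.1 T B := fun z => hZ1 z.2
  choose T hT using h1
  have hzz : ∀ z z' : Z, ∀ v, v ≤ z.1 → v ≤ z'.1 → z = z' := by
    intro z z' v hv hv'
    by_contra hne
    exact hZ2 z.1 z.2 z'.1 z'.2 (fun h => hne (Subtype.ext h)) ⟨v, hv, hv'⟩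
  refine ⟨fun a x => {s | ∃ z : Z, s ≤ z.1 ∧ s ∈ T z a x}, fun s hs => ⟨?_, ?_, ?_, ?_, ?_⟩⟩
  · rintro a x v ⟨z, h2, h3⟩ w hw
    exact ⟨z, hw.trans h2, (hT z).down _ _ _ h3 _ hw⟩
  · intro a q hq
    obtain ⟨r, hr, T', hT'⟩ := exists_inj hs q hq
    obtain ⟨z, hz, u, hu1, hu2⟩ := hZ3 r ⟨T', hT'⟩
    obtain ⟨v, hv, x, hx⟩ := (hT ⟨z, hz⟩).tot a u hu2
    exact ⟨v, hv.trans (hu1.trans hr), x, ⟨z, hz⟩, hv.trans hu2, hx⟩
  · rintro v _ a x x' ⟨z, h2, h3⟩ ⟨z', h2', h3'⟩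
    obtain rfl := hzz z z' v h2 h2'
    exact (hT z).uniq v h2 _ _ _ h3 h3'
  · rintro v _ a a' x ⟨z, h2, h3⟩ ⟨z', h2', h3'⟩
    obtain rfl := hzz z z' v h2 h2'
    exact (hT z).inj v h2 _ _ _ h3 h3'
  · rintro v _ a x ⟨z, h2, h3⟩
    exact (hT z).sub v h2 _ _ h3

section

variable {C Q : Type} [Preorder C] [Preorder Q] {κ : Cardinal.{0}}

theorem exists_prod2 (hκ : ℵ₀ < κ) (hcof : κ.ord.cof = ℵ₀)
    (hstrong : ∀ ν < κ, (2 : Cardinal.{0}) ^ ν < κ) (hC : Chang κ ℵ₀)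
    (hσ : SigmaClosed C) (hQ : PCCC Q) (hMA : ∀ q : Q, q ∈ MartinHolds Q Ux)
    (hP : #(C × Q) < κ) {p0 : C × Q} {c : Kx κ → Sx κ → Set (C × Q)}
    (hno : NoProd κ p0 c) :
    ∃ p ≤ p0, ∃ (A : Kx κ → Set (C × Q)) (B : Sx κ → Set (C × Q)),
      p ∈ AtLeast (Kx κ) A ∧ p ∈ AtLeast Om1 B ∧
      ∀ x α, ∀ s ≤ p, s ∈ meets (A x) → s ∈ meets (B α) → s ∈ meets (c x α) := by
  classical
  obtain ⟨L⟩ := exists_lev hκ hcof
  obtain ⟨G, hG1, hG2⟩ := exists_good (K := Kx κ) (S := Sx κ) hκ.le mk_Kx mk_Sx.ge hP.le hno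
  obtain ⟨h⟩ : Nonempty (Sx κ ↪ G) := by
    rw [← Cardinal.le_def, mk_Sx]
    exact hG1
  let bl : List (Sx κ) → Finset (Sx κ) := fun l => (l.map fun a => (h a).1).toFinset
  have hbl : ∀ l, p0 ∈ AtLeast (Kx κ) (inter c (bl l : Set (Sx κ))) := by
    intro l
    refine hG2 _ fun a ha => ?_
    simp only [bl, Finset.mem_coe, List.mem_toFinset, List.mem_map] at ha
    obtain ⟨b, _, rfl⟩ := ha
    exact (h b).2
  let Kn : ℕ → Type := fun n => {x : Kx κ // L.lev x = n}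
  let Mn : ℕ → Type := fun n => {x : Kx κ // L.lev x ≤ n}
  have hKM : ∀ n m, n ≤ m → #(Kn n) ≤ #(Mn m) := fun n m hnm =>
    mk_le_of_injective (f := fun x : Kn n => (⟨x.1, x.2.le.trans hnm⟩ : Mn m))
      (fun x y hxy => Subtype.ext (congrArg (fun w : Mn m => w.1) hxy))
  have hMM : ∀ n m, n ≤ m → #(Mn n) ≤ #(Mn m) := fun n m hnm =>
    mk_le_of_injective (f := fun x : Mn n => (⟨x.1, x.2.trans hnm⟩ : Mn m))
      (fun x y hxy => Subtype.ext (congrArg (fun w : Mn m => w.1) hxy))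
  let N : ∀ n, List (Sx κ) → Kn n → Set (C × Q) := fun n l x => inter c (bl l : Set (Sx κ)) x.1
  let D : ℕ → List (Sx κ) → Set (C × Q) := fun m l => {q | ∃ n, q ∈ AtLeast (Mn m) (N n l)}
  have hZ : ∀ n, #((Kn n → Set (C × Q)) × Set (C × Q)) ≤ κ := by
    intro n
    rw [mk_prod, lift_id, lift_id]
    refine mul_le_of_le hκ.le ?_ ?_
    · have h1 : #(Kn n → Set (C × Q)) = 2 ^ (#(C × Q) * #(Kn n)) := by
        rw [power_mul]
        simp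
      rw [h1]
      exact (hstrong _ (mul_lt_of_lt hκ.le hP ((hKM n n le_rfl).trans_lt (L.small n)))).le
    · rw [mk_set]
      exact (hstrong _ hP).le
  obtain ⟨X, hX, hXc⟩ := chang_family hC (fun n => (Kn n → Set (C × Q)) × Set (C × Q)) hZ
    (fun n l => (N n l, D n l))
  -- the generic condition of the `σ`-closed factor
  obtain ⟨c1, hc1, hc1D⟩ := easton hσ hQ
    (⋃ n, (Prod.snd '' {z : (Kn n → Set (C × Q)) × Set (C × Q) |
      ∃ l : List (Sx κ), (∀ a ∈ l, a ∈ X) ∧ (N n l, D n l) = z}))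
      (countable_iUnion fun n => (hXc n).image _) (by
      intro E hE
      obtain ⟨n, hn⟩ := mem_iUnion.1 hE
      obtain ⟨_, ⟨l, _, rfl⟩, rfl⟩ := hn
      rintro q ⟨k, hk⟩ r hr
      exact ⟨k, down_atLeast _ hk _ hr⟩) p0 (by
      intro E hE
      obtain ⟨n, hn⟩ := mem_iUnion.1 hE
      obtain ⟨_, ⟨l, _, rfl⟩, rfl⟩ := hn
      intro r hr
      obtain ⟨q, hq, k, hk⟩ := dense_level (M := Mn n) hκ mk_Kx hP (L.small n) L.lev (hbl l) r hr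
      exact ⟨q, hq, k, hk⟩)
  have hpD : ∀ n (l : List (Sx κ)), (∀ a ∈ l, a ∈ X) → ∀ q ≤ p0.2, ∃ r ≤ q, ∃ k,
      (c1, r) ∈ AtLeast (Mn n) (N k l) :=
    fun n l hl => hc1D _ (mem_iUnion.2 ⟨n, _, ⟨l, hl, rfl⟩, rfl⟩)
  -- the countable set of names
  let Zs : ∀ n, Set (Kn n → Set (C × Q)) := fun n =>
    {z | ∃ l : List (Sx κ), (∀ a ∈ l, a ∈ X) ∧ N n l = z}
  have hZs : ∀ n, Countable (Zs n) := by
    intro n
    refine ((hXc n).image Prod.fst).mono ?_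
    rintro z ⟨l, hl, rfl⟩
    exact ⟨(N n l, D n l), ⟨l, hl, rfl⟩, rfl⟩
  obtain ⟨f, hf⟩ := exists_injective_nat (ℕ × Σ n, Zs n)
  obtain ⟨e⟩ : Nonempty (Om1 ≃ X) := by
    rw [← Cardinal.eq, hX, mk_ord_toType]
  let ht : ℕ → ℕ := fun j => if hj : ∃ t, f t = j then hj.choose.1 else 0
  have hht : ∀ t, ht (f t) = t.1 := by
    intro t
    have h1 : ∃ t', f t' = f t := ⟨t, rfl⟩
    have h2 : ht (f t) = h1.choose.1 := dif_pos h1
    rw [h2, hf h1.choose_spec]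
  have hht0 : ∀ j, 0 < ht j → ∃ t, f t = j := by
    intro j hj
    by_contra hc
    have h2 : ht j = 0 := dif_neg hc
    omega
  let T : Om1 → ℕ → Set Q := fun α j => {q | ∃ t : ℕ × Σ n, Zs n, f t = j ∧
    (∀ (x : Kn t.2.1), ∀ s ≤ (c1, q), s ∈ meets (t.2.2.1 x) →
      s ∈ meets (c x.1 (h (e α)).1)) ∧ (c1, q) ∈ AtLeast (Mn t.1) t.2.2.1}
  have hTd : ∀ α j, Down (T α j) := by
    rintro α j q ⟨t, h1, h2, h3⟩ r hr
    have hle : ((c1, r) : C × Q) ≤ (c1, q) := ⟨le_rfl, hr⟩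
    exact ⟨t, h1, fun x s hs => h2 x s (hs.trans hle), down_atLeast _ h3 _ hle⟩
  obtain ⟨q1, hq1, E, hEd, hE1, hE2⟩ := exists_pseudo_name hQ hMA T ht (q0 := p0.2) (by
    intro b m q hq
    let l : List (Sx κ) := b.toList.map fun α => (e α).1
    have hl : ∀ a ∈ l, a ∈ X := by
      intro a ha
      obtain ⟨α, _, rfl⟩ := List.mem_map.1 ha
      exact (e α).2
    obtain ⟨r, hr, k, hk⟩ := hpD m l hl q hq
    have h1 : m ≤ ht (f (m, ⟨k, N k l, l, hl, rfl⟩)) := by rw [hht]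
    refine ⟨r, hr, f (m, ⟨k, N k l, l, hl, rfl⟩), h1, fun α hα => meets_of_mem
      ⟨(m, ⟨k, N k l, l, hl, rfl⟩), rfl, fun x s _ hs => ?_, hk⟩⟩
    have hs' : s ∈ meets (inter c (bl l : Set (Sx κ)) x.1) := hs
    refine mem_meets_inter.1 hs' _ ?_
    simp only [bl, Finset.mem_coe, List.mem_toFinset, List.mem_map]
    exact ⟨(e α).1, List.mem_map.2 ⟨α, Finset.mem_toList.2 hα, rfl⟩, rfl⟩)
  obtain ⟨q2, hq2, F0, h3⟩ := exists_uncountable hQ T E hE2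
  let Y : Om1 → Set Q := fun α => {q | ∀ t, t ∉ F0 → ∀ s ≤ q, s ∈ E t → s ∈ meets (T α t)}
  have hYd : ∀ α, Down (Y α) := fun α q hq r hr t ht' s hs => hq t ht' s (hs.trans hr)
  obtain ⟨R, hR, hRY⟩ := exists_blocks hQ Y hYd (q2 := q2) (fun q hq a => by
    obtain ⟨r, hr, α, hα, h4⟩ := h3 q hq a
    exact ⟨r, hr, α, hα, h4⟩)
  obtain ⟨a0⟩ : Nonempty Om1 := by
    obtain ⟨a, _⟩ := om_bound (L := ∅) countable_empty
    exact ⟨a⟩
  let E' : (ℕ × Σ n, Zs n) → Set Q := fun t => {q | f t ∉ F0 ∧ q ∈ E (f t)}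
  have hE'd : ∀ t, Down (E' t) := fun t q hq r hr => ⟨hq.1, hEd _ _ hq.2 _ hr⟩
  have hat : ∀ t, ∀ q ≤ q2, q ∈ E' t → (c1, q) ∈ AtLeast (Mn t.1) t.2.2.1 := by
    intro t q hq hqE
    refine atLeast_of_dense ?_
    rintro ⟨c', q'⟩ ⟨hc', hq'⟩
    obtain ⟨r, hr, α, _, hα⟩ := h3 q' (hq'.trans hq) a0
    have h4 := hα (f t) hqE.1 r le_rfl (hEd _ _ hqE.2 _ (hr.trans hq'))
    obtain ⟨u, hu, t', ht', _, h5⟩ := exists_of_meets (hTd _ _) h4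
    obtain rfl := hf ht'
    exact ⟨(c', u), ⟨le_rfl, hu.trans hr⟩, down_atLeast _ h5 _ ⟨hc', le_rfl⟩⟩
  have hsub : ∀ t α q, q ∈ Y α → q ∈ E' t → ∀ s ≤ (c1, q), ∀ x : Kn t.2.1,
      s ∈ meets (t.2.2.1 x) → s ∈ meets (c x.1 (h (e α)).1) := by
    intro t α q hqY hqE s hs x hx
    refine meets_of_dense ?_
    rintro ⟨c', q'⟩ hs'
    have hq' : q' ≤ q := (hs'.trans hs).2
    have h4 := hqY (f t) hqE.1 q' hq' (hEd _ _ hqE.2 _ hq')
    obtain ⟨u, hu, t', ht', h5, _⟩ := exists_of_meets (hTd _ _) h4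
    obtain rfl := hf ht'
    have hle : ((c', u) : C × Q) ≤ (c', q') := ⟨le_rfl, hu⟩
    exact ⟨(c', u), hle, h5 x (c', u) ⟨(hs'.trans hs).1, le_rfl⟩
      (down_meets _ _ hx _ (hle.trans hs'))⟩
  have hunb : ∀ n0 i, ∀ q ≤ q2, ∃ r ≤ q, ∃ t, i ≤ t.1 ∧ n0 < t.2.1 ∧ r ∈ E' t := by
    intro n0 i q hq
    have h1 : #(C × Q) * #(Mn n0) < κ := mul_lt_of_lt hκ.le hP (L.small n0)
    obtain ⟨m1, hm1⟩ := L.cof _ (hstrong _ h1)
    obtain ⟨r, hr, j, hj, hrj⟩ := hE1 (i + m1 + 1 + F0.sup ht) q (hq.trans hq2)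
    obtain ⟨t, rfl⟩ := hht0 j (by omega)
    rw [hht] at hj
    have hjF : f t ∉ F0 := by
      intro hc
      have h4 := Finset.le_sup (f := ht) hc
      rw [hht] at h4
      omega
    refine ⟨r, hr, t, by omega, ?_, hjF, hrj⟩
    by_contra hc
    rw [not_lt] at hc
    have h2 := le_of_atLeast (hat t r (hr.trans hq) ⟨hjF, hrj⟩)
    have h4 : #(Mn t.1) ≤ #(C × Q) * #(Mn n0) := h2.trans (mul_le_mul' le_rfl (hKM _ _ hc))
    have h5 : #(Mn m1) ≤ #(Mn t.1) := hMM _ _ (by omega)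
    exact absurd (hm1.trans (h5.trans h4)) (not_le.2 (cantor _))
  -- the first element with the wanted properties
  let Fi : ℕ → ℕ → (ℕ × Σ n, Zs n) → Set Q := fun i n0 t => {q | i ≤ t.1 ∧ n0 < t.2.1 ∧
    q ∈ E' t ∧ ∀ u, f u < f t → i ≤ u.1 → n0 < u.2.1 → ∀ r ≤ q, r ∉ E' u}
  have hFid : ∀ i n0 t, Down (Fi i n0 t) := by
    rintro i n0 t q ⟨h1, h2, h4, h5⟩ r hr
    exact ⟨h1, h2, hE'd _ _ h4 _ hr, fun u hu hu1 hu2 s hs => h5 u hu hu1 hu2 s (hs.trans hr)⟩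
  have hFi1 : ∀ i n0, ∀ q ≤ q2, ∃ r ≤ q, ∃ t, r ∈ Fi i n0 t := by
    intro i n0 q hq
    let W : Set ℕ := {j | ∃ t, f t = j ∧ i ≤ t.1 ∧ n0 < t.2.1 ∧ ∃ r ≤ q, r ∈ E' t}
    have hW : W.Nonempty := by
      obtain ⟨r, hr, t, h1, h2, h4⟩ := hunb n0 i q hq
      exact ⟨f t, t, rfl, h1, h2, r, hr, h4⟩
    obtain ⟨t, ht1, ht2, ht3, r, hr, ht4⟩ := Nat.sInf_mem hW
    refine ⟨r, hr, t, ht2, ht3, ht4, fun u hu hu1 hu2 s hs h5 => ?_⟩
    rw [ht1] at hu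
    exact Nat.notMem_of_lt_sInf hu ⟨u, rfl, hu1, hu2, s, hs.trans hr, h5⟩
  have hFi2 : ∀ i n0 q t t', q ∈ Fi i n0 t → q ∈ Fi i n0 t' → t = t' := by
    rintro i n0 q t t' ⟨h1, h2, h4, h5⟩ ⟨h1', h2', h4', h5'⟩
    rcases lt_trichotomy (f t) (f t') with h6 | h6 | h6
    · exact (h5' t h6 h1 h2 q le_rfl h4).elim
    · exact hf h6
    · exact (h5 t' h6 h1' h2' q le_rfl h4').elim
  let Sq : ℕ → (ℕ × Σ n, Zs n) → Set Q := fun i => Nat.rec (fun t => Fi 0 0 t)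
    (fun i S t => {q | ∃ u, q ∈ S u ∧ q ∈ Fi (i + 1) u.2.1 t}) i
  have hSq0 : ∀ t, Sq 0 t = Fi 0 0 t := fun t => rfl
  have hSqs : ∀ i t, Sq (i + 1) t = {q | ∃ u, q ∈ Sq i u ∧ q ∈ Fi (i + 1) u.2.1 t} :=
    fun i t => rfl
  have hSqd : ∀ i t, Down (Sq i t) := by
    intro i
    induction i with
    | zero => exact hFid 0 0
    | succ i ih =>
      rintro t q ⟨u, h1, h2⟩ r hr
      exact ⟨u, ih u _ h1 _ hr, hFid _ _ _ _ h2 _ hr⟩
  have hSq1 : ∀ i, ∀ q ≤ q2, ∃ r ≤ q, ∃ t, r ∈ Sq i t := by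
    intro i
    induction i with
    | zero => exact hFi1 0 0
    | succ i ih =>
      intro q hq
      obtain ⟨r, hr, u, hu⟩ := ih q hq
      obtain ⟨s, hs, t, ht'⟩ := hFi1 (i + 1) u.2.1 r (hr.trans hq)
      exact ⟨s, hs.trans hr, t, u, hSqd i u _ hu _ hs, ht'⟩
  have hSq2 : ∀ i q t t', q ∈ Sq i t → q ∈ Sq i t' → t = t' := by
    intro i
    induction i with
    | zero => exact fun q t t' => hFi2 0 0 q t t'
    | succ i ih =>
      rintro q t t' ⟨u, h1, h2⟩ ⟨u', h1', h2'⟩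
      obtain rfl := ih q u u' h1 h1'
      exact hFi2 _ _ q t t' h2 h2'
  have hSqE : ∀ i q t, q ∈ Sq i t → i ≤ t.1 ∧ q ∈ E' t := by
    intro i q t hq
    cases i with
    | zero => exact ⟨Nat.zero_le _, hq.2.2.1⟩
    | succ i =>
      obtain ⟨u, _, h2⟩ := hq
      exact ⟨h2.1, h2.2.2.1⟩
  have hSqlt : ∀ i k q t u, q ∈ Sq i t → q ∈ Sq (i + k + 1) u → t.2.1 < u.2.1 := by
    intro i k
    induction k with
    | zero =>
      rintro q t u h1 ⟨v, h2, h4⟩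
      obtain rfl := hSq2 i q t v h1 h2
      exact h4.2.1
    | succ k ih =>
      rintro q t u h1 ⟨v, h2, h4⟩
      exact (ih q t v h1 h2).trans h4.2.1
  -- the names
  choose J hJ using fun t : ℕ × Σ n, Zs n => exists_full (P := C × Q) (Mn t.1) t.2.2.1
  let A : Kx κ → Set (C × Q) := fun x =>
    {s | ∃ t : ℕ × Σ n, Zs n, ∃ hx : L.lev x = t.2.1, s.2 ∈ E' t ∧ s ∈ meets (t.2.2.1 ⟨x, hx⟩)}
  have hAd : ∀ x, Down (A x) := by
    rintro x s ⟨u, hx, hu, hs⟩ r hr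
    exact ⟨u, hx, hE'd _ _ hu _ hr.2, down_meets _ _ hs _ hr⟩
  let B : Sx κ → Set (C × Q) := fun y => {s | ∃ α : Om1, (h (e α)).1 = y ∧ s.2 ∈ Y α}
  have hBd : ∀ y, Down (B y) := by
    rintro y s ⟨α, h1, h2⟩ r hr
    exact ⟨α, h1, hYd _ _ h2 _ hr.2⟩
  have hJ' : ∀ t (s : C × Q), s ≤ (c1, q2) → s.2 ∈ E' t → Inj s (J t) t.2.2.1 := by
    intro t s hs hsE
    refine hJ t s (down_atLeast _ (hat t s.2 hs.2 hsE) _ ⟨hs.1, le_rfl⟩)
  refine ⟨(c1, q2), ⟨hc1, hq2.trans hq1⟩, A, B, ?_, ?_, ?_⟩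
  · refine Inj.atLeast (T := fun k x => {s : C × Q | s ≤ (c1, q2) ∧ ∃ t, s.2 ∈ Sq (L.lev k) t ∧
      ∃ (hk : L.lev k ≤ t.1) (hx : L.lev x = t.2.1), s ∈ J t ⟨k, hk⟩ ⟨x, hx⟩})
      ⟨?_, ?_, ?_, ?_, ?_⟩
    · rintro k x s ⟨h0, t, h1, hk, hx, h2⟩ r hr
      exact ⟨hr.trans h0, t, hSqd _ _ _ h1 _ hr.2, hk, hx,
        (hJ' t s h0 (hSqE _ _ _ h1).2).down _ _ _ h2 _ hr⟩
    · intro k s hs
      obtain ⟨r, hr, t, ht'⟩ := hSq1 (L.lev k) s.2 hs.2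
      have hle : ((s.1, r) : C × Q) ≤ s := ⟨le_rfl, hr⟩
      have h1 := hSqE _ _ _ ht'
      obtain ⟨s2, hs2, x, hx⟩ := (hJ' t (s.1, r) (hle.trans hs) h1.2).tot ⟨k, h1.1⟩ _ le_rfl
      exact ⟨s2, hs2.trans hle, x.1, hs2.trans (hle.trans hs), t, hSqd _ _ _ ht' _ hs2.2,
        h1.1, x.2, hx⟩
    · rintro s hs k x x' ⟨h0, t, h1, hk, hx, h2⟩ ⟨_, t', h1', hk', hx', h2'⟩
      obtain rfl := hSq2 _ _ _ _ h1 h1'
      have h4 := (hJ' t s h0 (hSqE _ _ _ h1).2).uniq s le_rfl _ _ _ h2 h2'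
      exact congrArg (fun w : Kn t.2.1 => w.1) h4
    · rintro s hs k k' x ⟨h0, t, h1, hk, hx, h2⟩ ⟨_, t', h1', hk', hx', h2'⟩
      have hlev : L.lev k = L.lev k' := by
        rcases lt_trichotomy (L.lev k) (L.lev k') with h4 | h4 | h4
        · obtain ⟨j, hj⟩ := Nat.exists_eq_add_of_lt h4
          rw [hj] at h1'
          have h5 := hSqlt _ _ _ _ _ h1 h1'
          rw [← hx, ← hx'] at h5
          exact absurd h5 (lt_irrefl _)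
        · exact h4
        · obtain ⟨j, hj⟩ := Nat.exists_eq_add_of_lt h4
          rw [hj] at h1
          have h5 := hSqlt _ _ _ _ _ h1' h1
          rw [← hx, ← hx'] at h5
          exact absurd h5 (lt_irrefl _)
      rw [hlev] at h1
      obtain rfl := hSq2 _ _ _ _ h1 h1'
      have h4 := (hJ' t s h0 (hSqE _ _ _ h1).2).inj s le_rfl _ _ _ h2 h2'
      exact congrArg (fun w : Mn t.1 => w.1) h4
    · rintro s hs k x ⟨h0, t, h1, hk, hx, h2⟩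
      exact meets_of_mem ⟨t, hx, (hSqE _ _ _ h1).2,
        (hJ' t s h0 (hSqE _ _ _ h1).2).sub s le_rfl _ _ h2⟩
  · refine Inj.atLeast (T := fun a y => {s : C × Q | ∃ α, (h (e α)).1 = y ∧ s.2 ∈ R a α})
      ⟨?_, ?_, ?_, ?_, ?_⟩
    · rintro a y s ⟨α, h1, h2⟩ r hr
      exact ⟨α, h1, hR.down _ _ _ h2 _ hr.2⟩
    · intro a s hs
      obtain ⟨r, hr, α, hα⟩ := hR.tot a s.2 hs.2
      exact ⟨(s.1, r), ⟨le_rfl, hr⟩, _, α, rfl, hα⟩
    · rintro s hs a y y' ⟨α, rfl, h2⟩ ⟨α', rfl, h2'⟩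
      rw [hR.uniq s.2 hs.2 _ _ _ h2 h2']
    · rintro s hs a a' y ⟨α, h1, h2⟩ ⟨α', h1', h2'⟩
      have h4 : α = α' := e.injective (Subtype.ext (h.injective (Subtype.ext (h1.trans h1'.symm))))
      subst h4
      exact hR.inj s.2 hs.2 _ _ _ h2 h2'
    · rintro s hs a y ⟨α, h1, h2⟩
      exact meets_of_mem ⟨α, h1, hRY _ _ h2⟩
  · intro x y s hs hxA hyB
    refine meets_of_dense fun s' hs' => ?_
    obtain ⟨s1, hs1, t, hx, h1, h2⟩ := exists_of_meets (hAd x) (down_meets _ _ hxA _ hs')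
    obtain ⟨s2, hs2, α, hα, h4⟩ := exists_of_meets (hBd y)
      (down_meets _ _ hyB _ (hs1.trans hs'))
    refine ⟨s2, hs2.trans hs1, ?_⟩
    rw [← hα]
    exact hsub t α s2.2 h4 (hE'd _ _ h1 _ hs2.2) s2
      ⟨(hs2.trans (hs1.trans (hs'.trans hs))).1, le_rfl⟩ ⟨x, hx⟩ (down_meets _ _ h2 _ hs2)

end

end Pool.Agent.U72.Pol
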