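import Pool.Agent.U72.Pol.Gch

/-!
# The final theorem on polarized relations at singular cardinals of countable cofinality
-/

set_option autoImplicit false

namespace Pool.Agent.U72.Pol

open Cardinal Set Pool.Agent.Helper669.Forcing Pool.Agent.Helper669.K Pool.Agent.Helper980.G
open Pool.Agent.W684.FM (PCCC Om1 MartinHolds PP pccc martinHolds bdd_succ)

theorem mk_Ux : #Ux = ℵ₁ := by
  have h1 : #Ux = #(Finset ℕ) * #(Finset Om1) := by
    rw [mk_prod, lift_id, lift_id]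
  have h2 : #(Finset Om1) = ℵ₁ := by
    rw [mk_finset_of_infinite, mk_ord_toType]
  rw [h1, h2]
  have h3 : #(Finset ℕ) = ℵ₀ := by simp
  rw [h3, aleph0_mul_eq (aleph0_le_aleph 1)]

instance : Infinite Ux := by
  rw [infinite_iff, mk_Ux]
  exact aleph0_le_aleph 1

/-- the stages of the iteration -/
abbrev Wx : Type := (Order.succ #Ux).ord.ToType

theorem mk_Wx : #Wx = ℵ_ 2 := by
  rw [mk_ord_toType, mk_Ux, succ_aleph]
  have : (1 : Ordinal.{0}) + 1 = 2 := one_add_one_eq_two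
  rw [this]

/-- the notion of forcing -/
abbrev Px : Type := Cl × PP Ux Wx

theorem succ_aleph_one : Order.succ (ℵ₁ : Cardinal.{0}) = ℵ_ 2 := by
  rw [succ_aleph]
  have : (1 : Ordinal.{0}) + 1 = 2 := one_add_one_eq_two
  rw [this]

section

variable (hG : ∀ ν : Cardinal.{0}, ℵ₀ ≤ ν → 2 ^ ν = Order.succ ν)

include hG

theorem two_aleph_one : 2 ^ (ℵ₁ : Cardinal.{0}) = ℵ_ 2 := by
  rw [hG _ (aleph0_le_aleph 1), succ_aleph_one]

theorem mk_Q_le : #(PP Ux Wx) ≤ 2 ^ (ℵ₁ : Cardinal.{0}) := by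
  refine mk_PP_le ?_ ?_ ?_ ?_
  · rw [mk_Ux]
    exact aleph0_le_aleph 1
  · rw [mk_Wx, two_aleph_one hG]
  · rw [mk_Ux]
  · rw [mk_Ux, ← power_mul, mul_eq_self (aleph0_le_aleph 1)]

theorem mk_Px_le : #Px ≤ ℵ_ 2 := by
  rw [mk_prod, lift_id, lift_id, ← two_aleph_one hG]
  exact mul_le_of_le ((aleph0_le_aleph 1).trans (cantor _).le) mk_cl_le (mk_Q_le hG)

theorem limit_facts {κ : Cardinal.{0}} (h0 : ℵ₀ < κ) (h1 : κ.ord.cof = ℵ₀) :
    ℵ_ 2 < κ ∧ ∀ ν < κ, (2 : Cardinal.{0}) ^ ν < κ := by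
  have hreg : ∀ ν : Cardinal.{0}, ℵ₀ ≤ ν → Order.succ ν ≠ κ := by
    rintro ν hν rfl
    rw [(isRegular_succ hν).cof_ord] at h1
    exact absurd (hν.trans_lt (Order.lt_succ ν)) (by rw [h1]; exact lt_irrefl _)
  have hsucc : ∀ ν < κ, ℵ₀ ≤ ν → Order.succ ν < κ := fun ν hν hν0 =>
    lt_of_le_of_ne (Order.succ_le_of_lt hν) (hreg ν hν0)
  have h2 : ℵ₁ < κ := by
    rw [← succ_aleph0]
    exact hsucc _ h0 le_rfl
  refine ⟨?_, fun ν hν => ?_⟩
  · rw [← succ_aleph_one]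
    exact hsucc _ h2 (aleph0_le_aleph 1)
  · rcases lt_or_ge ν ℵ₀ with h3 | h3
    · exact (power_lt_aleph0 (by norm_num [ofNat_lt_aleph0]) h3).trans h0
    · rw [hG ν h3]
      exact hsucc ν hν h3

/-- everything about the notion of forcing -/
theorem main (p : Px) :
    p ∈ ForcesGCH Px ∧ p ∈ StaysCardinal Px ℵ₁ ∧
    (∀ ν : Cardinal.{0}, ℵ_ 2 < ν → p ∈ StaysCardinal Px ν) ∧
    p ∈ SizeLe Px (ℵ_ 2 : Cardinal.{0}).ord.ToType (ℵ_ 1 : Cardinal.{0}).ord.ToType ∧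
    ∀ κ : Cardinal.{0}, ℵ₀ < κ → κ.ord.cof = ℵ₀ → Chang κ ℵ₀ →
      p ∈ RelationR Px κ.ord.ToType (Order.succ κ).ord.ToType (ℵ_ 1 : Cardinal.{0}).ord.ToType ∧
      p ∈ RelationS Px (Order.succ κ).ord.ToType κ.ord.ToType
        (ℵ_ 1 : Cardinal.{0}).ord.ToType := by
  have h2 := two_aleph_one hG
  refine ⟨forcesGCH (fun ν hν => hG ν ?_) pccc (mk_Q_le hG) p,
    staysCardinal_aleph_one sigmaClosed_cl pccc p, fun ν hν => staysCardinal_big ?_ ?_ p,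
    sizeLe_small ?_ ?_ p, fun κ h0 h1 hC => ?_⟩
  · exact ((aleph0_le_aleph 1).trans (cantor _).le).trans hν
  · exact (aleph0_le_aleph 2).trans hν.le
  · exact (mk_Px_le hG).trans_lt hν
  · rw [mk_ord_toType]
  · rw [mk_ord_toType, h2]
  · obtain ⟨h3, h4⟩ := limit_facts hG h0 h1
    have h5 : p ∈ RelationR Px (Kx κ) (Sx κ) (ℵ_ 1 : Cardinal.{0}).ord.ToType :=
      relationR2 h0 h1 h4 hC sigmaClosed_cl pccc (fun q => martinHolds (bdd_succ Ux) q)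
        ((mk_Px_le hG).trans_lt h3) p
    refine ⟨h5, relationS_of_relationR ?_ h5⟩
    rw [mk_Kx, mk_Sx]
    exact Order.le_succ κ

end

end Pool.Agent.U72.Pol
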