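import Pool.Agent.U72.Pol.Rel
import Pool.Agent.U72.Pol.Card
import Pool.Agent.Helper647.GR.ForceCH

/-!
# The generalized continuum hypothesis in the extension
-/

set_option autoImplicit false

namespace Pool.Agent.U72.Pol

open Cardinal Set Pool.Agent.Helper669.Forcing Pool.Agent.Helper669.K Pool.Agent.Helper980.G
open Pool.Agent.W684.FM (PCCC Om1 MartinHolds PP exists_predense exists_countable_name)
open Pool.Agent.W910.FC (Dec Tr)

/-- the `σ`-closed collapse of `2 ^ ℵ₁` to `ℵ₁`: the conditions are countable sequences of subsets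
of `ω₁` -/
abbrev Cl : Type := Pool.Agent.Helper647.GR.ForceCH.Cond

theorem cl_le {q p : Cl} : q ≤ p ↔ p.1 ≤ q.1 ∧ ∀ a < p.1, q.2 a = p.2 a := Iff.rfl

theorem sigmaClosed_cl : SigmaClosed Cl := Pool.Agent.Helper647.GR.ForceCH.sigmaClosed

theorem mk_cl_le : #Cl ≤ 2 ^ (ℵ₁ : Cardinal.{0}) := by
  have h1 : #Cl = #(Om1 × (Om1 → Set Om1)) := rfl
  rw [h1, mk_prod, lift_id, lift_id]
  have h2 : #(Om1 → Set Om1) = (2 ^ (ℵ₁ : Cardinal.{0})) ^ (ℵ₁ : Cardinal.{0}) := by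
    have : #(Om1 → Set Om1) = #(Set Om1) ^ #Om1 := by simp
    rw [this, mk_set, mk_ord_toType]
  rw [h2, ← power_mul, mul_eq_self (aleph0_le_aleph 1), mk_ord_toType]
  exact mul_le_of_le ((aleph0_le_aleph 1).trans (cantor _).le) (cantor _).le le_rfl

section

variable {P : Type} [Preorder P]

theorem sizeLe_of_atLeast {X Y : Type} {B : X → Set P} {p : P} (h : p ∈ AtLeast Y B) :
    p ∈ SizeLe P Y X := by
  refine mem_fex.2 fun q hq => ?_
  obtain ⟨r, hr, R, h1, h2, _⟩ := mem_fex.1 h q hq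
  exact ⟨r, hr, R, h1, h2⟩

theorem powerLe_names {X Y : Type} (h : #(X → Set P) ≤ #Y) (p : P) : p ∈ PowerLe P X Y := by
  obtain ⟨g, hg⟩ : ∃ g : Y → X → Set P, Function.Surjective g := by
    obtain ⟨j⟩ := h
    have : Nonempty (X → Set P) := ⟨fun _ => ∅⟩
    exact ⟨Function.invFun j, Function.invFun_surjective j.injective⟩
  refine mem_fex.2 fun q _ => ⟨q, le_rfl, g, fun A => mem_fex.2 fun r _ => ?_⟩
  obtain ⟨y, hy⟩ := hg A
  refine ⟨r, le_rfl, y, fun x => ?_⟩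
  rw [hy]
  exact fiff_self r

/-- `ν` is still a cardinal: no smaller cardinal can be mapped onto it. -/
def StaysCardinal (P : Type) [Preorder P] (ν : Cardinal.{0}) : Set P :=
  fall fun μ : Cardinal.{0} => fall fun _ : μ < ν =>
    fnot (fex fun R : μ.out → ν.out → Set P => fand (IsFun R) (IsOnto R))

theorem staysCardinal_big {ν : Cardinal.{0}} (hν : ℵ₀ ≤ ν) (h : #P < ν) (p : P) :
    p ∈ StaysCardinal P ν := by
  intro μ hμ q _ hq
  obtain ⟨r, _, R, hR1, hR2⟩ := mem_fex.1 hq q le_rfl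
  have h1 : ∀ y : ν.out, ∃ s ≤ r, ∃ x : μ.out, s ∈ meets (R x y) := fun y =>
    mem_fex.1 (hR2 y) r le_rfl
  choose s hs x hx using h1
  have hinj : Function.Injective fun y => (s y, x y) := by
    intro y y' hyy
    have h3 : s y = s y' := congrArg Prod.fst hyy
    have h4 : x y = x y' := congrArg Prod.snd hyy
    have h5 := hx y'
    rw [← h3, ← h4] at h5
    exact IsFun.unique (down_IsFun _ _ hR1 _ (hs y)) (hx y) h5
  have h2 := mk_le_of_injective hinj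
  rw [mk_prod, lift_id, lift_id, mk_out, mk_out] at h2
  exact absurd h2 (not_le.2 (mul_lt_of_lt hν h hμ))

end

section

variable {C Q : Type} [Preorder C] [Preorder Q]

theorem exists_name (hC : SigmaClosed C) (hQ : PCCC Q) (N : Set (C × Q)) (c0 : C) :
    ∃ c ≤ c0, ∃ A : Set Q, Tr c (meets N) (meets A) := by
  obtain ⟨q, hq, hdec⟩ := exists_dense_dec hC hQ (meets N) (down_meets N) c0
  refine ⟨q, hq, {p | (q, p) ∈ meets N}, fun q' hq' p => ⟨fun h p1 hp1 => ?_, fun h => ?_⟩⟩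
  · obtain ⟨p2, hp2, h2⟩ := hdec p1
    rcases h2 with h2 | h2
    · exact ⟨p2, hp2, p2, h2, le_rfl⟩
    · exact absurd (down_meets N _ h (q', p2) ⟨le_rfl, le_trans hp2 hp1⟩)
        (h2 (q', p2) ⟨hq', le_rfl⟩)
  · apply meets_of_dense
    rintro ⟨q3, p3⟩ ⟨h3, h4⟩
    obtain ⟨r, hr, s, hs, hrs⟩ := h p3 h4
    exact ⟨(q3, r), ⟨le_rfl, hr⟩, down_meets N _ hs (q3, r) ⟨le_trans h3 hq', hrs⟩⟩

theorem exists_names (hC : SigmaClosed C) (hQ : PCCC Q) {X : Type} [Countable X]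
    (N : X → Set (C × Q)) (c0 : C) :
    ∃ c ≤ c0, ∃ A : X → Set Q, ∀ x, Tr c (meets (N x)) (meets (A x)) := by
  obtain ⟨c, hc, h⟩ := meet_set hC (range fun x => {c : C | ∃ A : Set Q,
    Tr c (meets (N x)) (meets A)}) (countable_range _) (by
      rintro _ ⟨x, rfl⟩ c ⟨A, hA⟩ c' hc'
      exact ⟨A, hA.mono hc'⟩) c0 (by
      rintro _ ⟨x, rfl⟩ c _
      obtain ⟨c', hc', A, hA⟩ := exists_name hC hQ (N x) c
      exact ⟨c', hc', A, hA⟩)
  have h1 : ∀ x, ∃ A : Set Q, Tr c (meets (N x)) (meets A) := fun x => h _ ⟨x, rfl⟩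
  choose A hA using h1
  exact ⟨c, hc, A, hA⟩

/-- `ω₁` is preserved -/
theorem staysCardinal_aleph_one (hC : SigmaClosed C) (hQ : PCCC Q) (p : C × Q) :
    p ∈ StaysCardinal (C × Q) ℵ₁ := by
  classical
  intro μ hμ q _ hq
  obtain ⟨r, _, R, hR1, hR2⟩ := mem_fex.1 hq q le_rfl
  have hμc : Countable μ.out := by
    rw [← mk_le_aleph0_iff, mk_out, ← Order.lt_succ_iff, succ_aleph0]
    exact hμ
  obtain ⟨c1, hc1, h1⟩ := easton hC hQ (range fun x : μ.out => {s : C × Q | ∃ y,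
    s ∈ meets (R x y)}) (countable_range _) (by
      rintro _ ⟨x, rfl⟩ s ⟨y, hy⟩ t ht
      exact ⟨y, down_meets _ _ hy _ ht⟩) r (by
      rintro _ ⟨x, rfl⟩ s hs
      obtain ⟨t, ht, y, hy⟩ := mem_fex.1 (hR1.1 x) s hs
      exact ⟨t, ht, y, hy⟩)
  have h2 : ∀ x, ∀ q ≤ r.2, ∃ q' ≤ q, ∃ y, (c1, q') ∈ meets (R x y) :=
    fun x => h1 _ ⟨x, rfl⟩
  choose A hA1 hA2 hA3 using fun x => exists_predense hQ {q : Q | ∃ y, (c1, q) ∈ meets (R x y)}
    (by
      rintro q ⟨y, hy⟩ q' hq'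
      exact ⟨y, down_meets _ _ hy _ ⟨le_rfl, hq'⟩⟩)
  have h3 : ∀ x, ∀ z : A x, ∃ y, (c1, z.1) ∈ meets (R x y) := fun x z => hA2 x z.2
  choose y hy using h3
  have hcount : (⋃ x, range (y x)).Countable := by
    refine countable_iUnion fun x => ?_
    have : Countable (A x) := (hA1 x).to_subtype
    exact countable_range _
  obtain ⟨b, hb⟩ : ∃ b : (ℵ₁ : Cardinal.{0}).out, b ∉ ⋃ x, range (y x) := by
    by_contra hc
    push Not at hc
    have h4 : (Set.univ : Set (ℵ₁ : Cardinal.{0}).out).Countable :=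
      hcount.mono fun x _ => hc x
    rw [← le_aleph0_iff_set_countable, mk_univ, mk_out] at h4
    exact absurd h4 (not_le.2 aleph0_lt_aleph_one)
  obtain ⟨s, hs, x, hx⟩ := mem_fex.1 (hR2 b) (c1, r.2) ⟨hc1, le_rfl⟩
  obtain ⟨q', hq', b', hb'⟩ := h2 x s.2 hs.2
  obtain ⟨z, hz, u, hu1, hu2⟩ := hA3 x q' ⟨b', hb'⟩
  have hle1 : ((s.1, u) : C × Q) ≤ s := ⟨le_rfl, hu1.trans hq'⟩
  have hle2 : ((s.1, u) : C × Q) ≤ (c1, z) := ⟨hs.1, hu2⟩
  have hle3 : ((s.1, u) : C × Q) ≤ r := hle1.trans (hs.trans ⟨hc1, le_rfl⟩)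
  have h5 : b = y x ⟨z, hz⟩ := IsFun.unique (down_IsFun _ _ hR1 _ hle3)
    (down_meets _ _ hx _ hle1) (down_meets _ _ (hy x ⟨z, hz⟩) _ hle2)
  exact hb (mem_iUnion.2 ⟨x, ⟨z, hz⟩, h5.symm⟩)

end

section

variable {Q : Type} [Preorder Q]

open Pool.Agent.Helper647.GR.ForceCH (exists_succ)

/-- `2 ^ ℵ₁` is collapsed to `ℵ₁` -/
theorem sizeLe_small {X Y : Type} (hX : ℵ₁ ≤ #X) (hY : #Y ≤ 2 ^ (ℵ₁ : Cardinal.{0}))
    (p : Cl × Q) : p ∈ SizeLe (Cl × Q) Y X := by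
  obtain ⟨f⟩ : Nonempty (Y ↪ Set Om1) := by
    rw [← Cardinal.le_def, mk_set, mk_ord_toType]
    exact hY
  obtain ⟨g⟩ : Nonempty (Om1 ↪ X) := by
    rw [← Cardinal.le_def, mk_ord_toType]
    exact hX
  refine sizeLe_of_atLeast (B := fun _ => {_s | True}) (Inj.atLeast
    (T := fun y x => {s : Cl × Q | ∃ a, g a = x ∧ a < s.1.1 ∧ s.1.2 a = f y ∧
      ∀ b < a, s.1.2 b ≠ f y}) ⟨?_, ?_, ?_, ?_, ?_⟩)
  · rintro y x s ⟨a, h1, h2, h3, h4⟩ t ht
    have ht' := cl_le.1 ht.1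
    refine ⟨a, h1, h2.trans_le ht'.1, (ht'.2 a h2).trans h3, fun b hb => ?_⟩
    rw [ht'.2 b (hb.trans h2)]
    exact h4 b hb
  · intro y s _
    obtain ⟨c, hc, h1, h2⟩ := exists_succ s.1 (f y)
    let W : Set Om1 := {a | c.2 a = f y}
    have hW : W.Nonempty := ⟨s.1.1, h2⟩
    have h3 : wellFounded_lt.min W hW ≤ s.1.1 :=
      not_lt.1 (wellFounded_lt.not_lt_min W (x := s.1.1) h2)
    exact ⟨(c, s.2), ⟨hc, le_rfl⟩, _, wellFounded_lt.min W hW, rfl, h3.trans_lt h1,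
      wellFounded_lt.min_mem W hW, fun b hb hb' =>
        wellFounded_lt.not_lt_min W (x := b) hb' hb⟩
  · rintro s _ y x x' ⟨a, rfl, h2, h3, h4⟩ ⟨a', rfl, h2', h3', h4'⟩
    rcases lt_trichotomy a a' with h | h | h
    · exact (h4' a h h3).elim
    · rw [h]
    · exact (h4 a' h h3').elim
  · rintro s _ y y' x ⟨a, h1, h2, h3, h4⟩ ⟨a', h1', h2', h3', h4'⟩
    obtain rfl := g.injective (h1.trans h1'.symm)
    exact f.injective (h3.symm.trans h3')
  · exact fun s _ y x _ => meets_of_mem trivial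

/-- the continuum hypothesis -/
theorem powerLe_countable (hQ : PCCC Q) (hQc : #Q ≤ 2 ^ (ℵ₁ : Cardinal.{0})) {X Y : Type}
    [Countable X] (hY : ℵ₁ ≤ #Y) (p : Cl × Q) : p ∈ PowerLe (Cl × Q) X Y := by
  classical
  obtain ⟨g⟩ : Nonempty (Om1 ↪ Y) := by
    rw [← Cardinal.le_def, mk_ord_toType]
    exact hY
  have h2 : ℵ₀ ≤ 2 ^ (ℵ₁ : Cardinal.{0}) := (aleph0_le_aleph 1).trans (cantor _).le
  obtain ⟨d, hd⟩ : ∃ d : Set Om1 → X → ℕ → Option Q, Function.Surjective d := by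
    have h1 : #(X → ℕ → Option Q) ≤ #(Set Om1) := by
      rw [mk_set, mk_ord_toType]
      have h3 : #(X → ℕ → Option Q) = (#(Option Q) ^ ℵ₀) ^ #X := by simp
      rw [h3]
      have h4 : #(Option Q) ≤ 2 ^ (ℵ₁ : Cardinal.{0}) := by
        rw [mk_option]
        exact add_le_of_le h2 hQc (one_le_aleph0.trans h2)
      refine (power_le_power_right (power_le_power_right h4)).trans ?_
      rw [← power_mul, ← power_mul]
      refine power_le_power_left two_ne_zero ?_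
      have h5 : #X ≤ ℵ₁ := mk_le_aleph0.trans (aleph0_le_aleph 1)
      exact mul_le_of_le (aleph0_le_aleph 1) le_rfl
        (mul_le_of_le (aleph0_le_aleph 1) (aleph0_le_aleph 1) h5)
    obtain ⟨j⟩ := h1
    have : Nonempty (X → ℕ → Option Q) := ⟨fun _ _ => none⟩
    exact ⟨Function.invFun j, Function.invFun_surjective j.injective⟩
  let E : Y → X → Set (Cl × Q) := fun y x => {s | ∃ a, g a = y ∧ a < s.1.1 ∧ ∃ n q0,
    d (s.1.2 a) x n = some q0 ∧ s.2 ≤ q0}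
  have hEd : ∀ y x, Down (E y x) := by
    rintro y x s ⟨a, h1, h3, n, q0, h4, h5⟩ t ht
    have ht' := cl_le.1 ht.1
    refine ⟨a, h1, h3.trans_le ht'.1, n, q0, ?_, ht.2.trans h5⟩
    rw [ht'.2 a h3]
    exact h4
  refine mem_fex.2 fun q _ => ⟨q, le_rfl, E, fun A => mem_fex.2 fun r _ => ?_⟩
  obtain ⟨c', hc', A', hA'⟩ := exists_names sigmaClosed_cl hQ A r.1
  choose A'' hA1 hA2 using fun x => exists_countable_name hQ (A' x)
  have h3 : ∀ x, ∃ e : ℕ → Option Q, ∀ q0, q0 ∈ A'' x ↔ ∃ n, e n = some q0 := by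
    intro x
    rcases (A'' x).eq_empty_or_nonempty with h | h
    · exact ⟨fun _ => none, fun s => by simp [h]⟩
    · obtain ⟨e, he⟩ := (hA1 x).exists_eq_range h
      refine ⟨fun n => some (e n), fun s => ?_⟩
      rw [he]
      simp
  choose e he using h3
  obtain ⟨z, hz⟩ := hd e
  obtain ⟨c'', hc'', h4, h5⟩ := exists_succ c' z
  have key : ∀ x, ∀ t ≤ ((c'', r.2) : Cl × Q), t ∈ meets (A x) ↔ t ∈ meets (E (g c'.1) x) := by
    intro x t ht
    have h6 : t ∈ meets (A x) ↔ t.2 ∈ meets (A'' x) := by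
      rw [hA2 x]
      exact hA' x t.1 (ht.1.trans hc'') t.2
    rw [h6]
    have h7 : ∀ u : Cl, u ≤ c'' → c'.1 < u.1 ∧ u.2 c'.1 = z := by
      intro u hu
      have hu' := cl_le.1 hu
      exact ⟨h4.trans_le hu'.1, (hu'.2 _ h4).trans h5⟩
    constructor
    · intro h u hu
      obtain ⟨r', hr', a0, ha0, hra⟩ := h u.2 hu.2
      obtain ⟨n, hn⟩ := (he x a0).1 ha0
      obtain ⟨h8, h9⟩ := h7 u.1 (hu.1.trans ht.1)
      refine ⟨(u.1, r'), ⟨le_rfl, hr'⟩, (u.1, r'), ⟨c'.1, rfl, h8, n, a0, ?_, hra⟩, le_rfl⟩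
      show d (u.1.2 c'.1) x n = some a0
      rw [h9, hz]
      exact hn
    · intro h q1 hq1
      have hle : ((t.1, q1) : Cl × Q) ≤ t := ⟨le_rfl, hq1⟩
      obtain ⟨u, hu, a, ha, _, n, q0, h9, h10⟩ :=
        exists_of_meets (hEd _ _) (down_meets _ _ h _ hle)
      obtain rfl := g.injective ha
      rw [(h7 u.1 ((hu.trans hle).1.trans ht.1)).2, hz] at h9
      exact ⟨u.2, hu.2, q0, (he x q0).2 ⟨n, h9⟩, h10⟩
  refine ⟨(c'', r.2), ⟨hc''.trans hc', le_rfl⟩, g c'.1, fun x => ⟨?_, ?_⟩⟩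
  · exact mem_fimp.2 fun t ht h => ⟨t, le_rfl, (key x t ht).1 h⟩
  · exact mem_fimp.2 fun t ht h => ⟨t, le_rfl, (key x t ht).2 h⟩

/-- GCH in the extension -/
theorem forcesGCH (hG : ∀ ν : Cardinal.{0}, 2 ^ (ℵ₁ : Cardinal.{0}) ≤ ν → 2 ^ ν = Order.succ ν)
    (hQ : PCCC Q) (hQc : #Q ≤ 2 ^ (ℵ₁ : Cardinal.{0})) (p : Cl × Q) :
    p ∈ ForcesGCH (Cl × Q) := by
  intro X Y hX
  have hXω : ℵ₀ ≤ #X := aleph0_le_mk X
  have h2 : ℵ₀ ≤ 2 ^ (ℵ₁ : Cardinal.{0}) := (aleph0_le_aleph 1).trans (cantor _).le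
  rcases le_or_gt #Y #X with h | h
  · exact for_left (down_fex _) (sizeLe_of_le h p)
  rcases le_or_gt #X ℵ₀ with hX0 | hX0
  · have : Countable X := mk_le_aleph0_iff.1 hX0
    refine for_right (down_fex _) (powerLe_countable hQ hQc ?_ p)
    rw [← succ_aleph0]
    exact Order.succ_le_of_lt (hXω.trans_lt h)
  have hX1 : ℵ₁ ≤ #X := by
    rw [← succ_aleph0]
    exact Order.succ_le_of_lt hX0
  rcases le_or_gt #Y (2 ^ (ℵ₁ : Cardinal.{0})) with hY | hY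
  · exact for_left (down_fex _) (sizeLe_small hX1 hY p)
  refine for_right (down_fex _) (powerLe_names ?_ p)
  have h3 : #(X → Set (Cl × Q)) = 2 ^ (#(Cl × Q) * #X) := by
    rw [power_mul]
    simp
  rw [h3]
  have h4 : #(Cl × Q) ≤ 2 ^ (ℵ₁ : Cardinal.{0}) := by
    rw [mk_prod, lift_id, lift_id]
    exact mul_le_of_le h2 mk_cl_le hQc
  have h5 : #(Cl × Q) * #X ≤ max (2 ^ (ℵ₁ : Cardinal.{0})) #X :=
    mul_le_of_le (h2.trans (le_max_left _ _)) (h4.trans (le_max_left _ _)) (le_max_right _ _)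
  refine (power_le_power_left two_ne_zero h5).trans ?_
  rw [hG _ (le_max_left _ _)]
  exact Order.succ_le_of_lt (max_lt hY h)

end

end Pool.Agent.U72.Pol
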