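import Pool.Agent.U72.Pol.Chang

/-!
# The polarized relation in the extension by a small `σ`-closed notion of forcing
-/

set_option autoImplicit false

namespace Pool.Agent.U72.Pol

open Cardinal Set Pool.Agent.Helper669.Forcing Pool.Agent.Helper669.K Pool.Agent.Helper980.G

section

variable {P : Type} [Preorder P]

/-- Every decreasing sequence of conditions has a lower bound. -/
def SigmaClosed (P : Type) [Preorder P] : Prop :=
  ∀ s : ℕ → P, (∀ n, s (n + 1) ≤ s n) → ∃ q, ∀ n, q ≤ s n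

theorem meet_nat (hP : SigmaClosed P) (D : ℕ → Set P) (hD : ∀ n, Down (D n)) (p : P)
    (hd : ∀ n, ∀ r ≤ p, ∃ q ≤ r, q ∈ D n) : ∃ q ≤ p, ∀ n, q ∈ D n := by
  choose f hf hf' using hd
  let s : ℕ → {r : P // r ≤ p} := fun n => Nat.rec ⟨p, le_rfl⟩
    (fun k r => ⟨f k r.1 r.2, (hf k r.1 r.2).trans r.2⟩) n
  have h1 : ∀ n, (s (n + 1)).1 ≤ (s n).1 := fun n => hf n (s n).1 (s n).2
  obtain ⟨q, hq⟩ := hP (fun n => (s n).1) h1
  exact ⟨q, hq 0, fun n => hD n _ (hf' n (s n).1 (s n).2) _ (hq (n + 1))⟩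

theorem meet_set (hP : SigmaClosed P) (𝒟 : Set (Set P)) (hc : 𝒟.Countable)
    (hD : ∀ D ∈ 𝒟, Down D) (p : P) (hd : ∀ D ∈ 𝒟, ∀ r ≤ p, ∃ q ≤ r, q ∈ D) :
    ∃ q ≤ p, ∀ D ∈ 𝒟, q ∈ D := by
  rcases 𝒟.eq_empty_or_nonempty with he | hne
  · exact ⟨p, le_rfl, fun D h => by rw [he] at h; exact h.elim⟩
  obtain ⟨f, hf⟩ := hc.exists_eq_range hne
  obtain ⟨q, hq, h⟩ := meet_nat hP f (fun n => hD _ (hf ▸ mem_range_self n)) p
    (fun n => hd _ (hf ▸ mem_range_self n))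
  refine ⟨q, hq, fun D hDD => ?_⟩
  rw [hf] at hDD
  obtain ⟨n, rfl⟩ := hDD
  exact h n

variable {κ : Cardinal.{0}}

/-- A division of `κ` into countably many small levels. -/
structure Lev (κ : Cardinal.{0}) where
  /-- the level of an element -/
  lev : Kx κ → ℕ
  small : ∀ n, #{x // lev x ≤ n} < κ
  cof : ∀ μ < κ, ∃ n, μ ≤ #{x // lev x ≤ n}

theorem exists_lev (hκ : ℵ₀ < κ) (hcof : κ.ord.cof = ℵ₀) : Nonempty (Lev κ) := by
  classical
  obtain ⟨S, hS, hS2⟩ := Order.exists_cof_eq (Kx κ)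
  rw [Ordinal.cof_toType, hcof] at hS2
  obtain ⟨e⟩ : Nonempty (ℕ ≃ S) := by
    rw [← Cardinal.eq, hS2, mk_nat]
  have h1 : ∀ x : Kx κ, ∃ n, x ≤ (e n).1 := by
    intro x
    obtain ⟨w, hw, h⟩ := hS x
    exact ⟨e.symm ⟨w, hw⟩, by simpa using h⟩
  let lev : Kx κ → ℕ := fun x => Nat.find (h1 x)
  have hlev : ∀ x, x ≤ (e (lev x)).1 := fun x => Nat.find_spec (h1 x)
  have hle : ∀ x n, x ≤ (e n).1 → lev x ≤ n := fun x n h => Nat.find_min' (h1 x) h
  have hIic : ∀ x : Kx κ, #(Iic x) < κ := by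
    intro x
    rw [← Iio_insert]
    exact mk_insert_le.trans_lt (add_lt_of_lt hκ.le (mk_Iio_ord _) (one_lt_aleph0.trans hκ))
  refine ⟨⟨lev, fun n => ?_, fun μ hμ => ?_⟩⟩
  · have h2 : {x | lev x ≤ n} ⊆ ⋃ i : Fin (n + 1), Iic (e i.1).1 := fun x hx =>
      mem_iUnion.2 ⟨⟨lev x, Nat.lt_succ_of_le hx⟩, hlev x⟩
    have h3 : #{x | lev x ≤ n} < κ := by
      refine (mk_le_mk_of_subset h2).trans_lt ?_
      induction n with
      | zero =>
        have : (⋃ i : Fin (0 + 1), Iic (e i.1).1) = Iic (e 0).1 := by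
          ext x
          simp
        rw [this]
        exact hIic _
      | succ n ih =>
        have h4 : (⋃ i : Fin (n + 1 + 1), Iic (e i.1).1) ⊆
            (⋃ i : Fin (n + 1), Iic (e i.1).1) ∪ Iic (e (n + 1)).1 := by
          intro x hx
          obtain ⟨i, hi⟩ := mem_iUnion.1 hx
          rcases Nat.lt_succ_iff_lt_or_eq.1 i.2 with h5 | h5
          · exact Or.inl (mem_iUnion.2 ⟨⟨i.1, h5⟩, hi⟩)
          · right
            rw [← h5]
            exact hi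
        refine (mk_le_mk_of_subset h4).trans_lt ((mk_union_le _ _).trans_lt ?_)
        refine add_lt_of_lt hκ.le (ih ?_) (hIic _)
        intro x hx
        exact mem_iUnion.2 ⟨⟨lev x, Nat.lt_succ_of_le hx⟩, hlev x⟩
    exact h3
  · -- an element with at least `μ` predecessors
    obtain ⟨x, hx⟩ : ∃ x : Kx κ, μ ≤ #(Iio x) := by
      by_contra hc
      push Not at hc
      have h2 : μ.ord < Ordinal.type (α := Kx κ) (· < ·) := by
        rw [Ordinal.type_toType]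
        exact ord_lt_ord.2 hμ
      have h3 := hc (Ordinal.enum (α := Kx κ) (· < ·) ⟨μ.ord, h2⟩)
      have h4 : Ordinal.typein (α := Kx κ) (· < ·)
          (Ordinal.enum (α := Kx κ) (· < ·) ⟨μ.ord, h2⟩) = μ.ord := Ordinal.typein_enum _ _
      have h5 : #(Iio (Ordinal.enum (α := Kx κ) (· < ·) ⟨μ.ord, h2⟩)) = μ := by
        have h6 := congrArg Ordinal.card h4
        rw [card_ord] at h6
        exact h6
      rw [h5] at h3
      exact lt_irrefl _ h3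
    refine ⟨lev x, hx.trans (mk_le_of_injective (f := fun y : Iio x => (⟨y.1, hle _ _
      (y.2.le.trans (hlev x))⟩ : {y // lev y ≤ lev x})) ?_)⟩
    intro y z h
    exact Subtype.ext (congrArg (fun w : {y // lev y ≤ lev x} => w.1) h)

theorem exists_prod (hκ : ℵ₀ < κ) (hcof : κ.ord.cof = ℵ₀)
    (hstrong : ∀ ν < κ, (2 : Cardinal.{0}) ^ ν < κ) (hC : Chang κ ℵ₀) (hp : PseudoInt)
    (hσ : SigmaClosed P) (hP : #P < κ) {p0 : P} {c : Kx κ → Sx κ → Set P}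
    (hno : NoProd κ p0 c) :
    ∃ p ≤ p0, ∃ (A : Kx κ → Set P) (B : Set (Sx κ)), p ∈ AtLeast (Kx κ) A ∧ #B = ℵ₁ ∧
      ∀ x, ∀ α ∈ B, ∀ s ≤ p, s ∈ meets (A x) → s ∈ meets (c x α) := by
  classical
  obtain ⟨L⟩ := exists_lev hκ hcof
  obtain ⟨G, hG1, hG2⟩ := exists_good (K := Kx κ) (S := Sx κ) hκ.le mk_Kx mk_Sx.ge hP.le hno
  obtain ⟨h⟩ : Nonempty (Sx κ ↪ G) := by
    rw [← Cardinal.le_def, mk_Sx]
    exact hG1
  let bl : List (Sx κ) → Finset (Sx κ) := fun l => (l.map fun a => (h a).1).toFinset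
  have hbl : ∀ l, p0 ∈ AtLeast (Kx κ) (inter c (bl l : Set (Sx κ))) := by
    intro l
    refine hG2 _ fun a ha => ?_
    simp only [bl, Finset.mem_coe, List.mem_toFinset, List.mem_map] at ha
    obtain ⟨b, _, rfl⟩ := ha
    exact (h b).2
  let Kn : ℕ → Type := fun n => {x : Kx κ // L.lev x = n}
  let Mn : ℕ → Type := fun n => {x : Kx κ // L.lev x ≤ n}
  have hKM : ∀ n m, n ≤ m → #(Kn n) ≤ #(Mn m) := fun n m hnm =>
    mk_le_of_injective (f := fun x : Kn n => (⟨x.1, x.2.le.trans hnm⟩ : Mn m))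
      (fun x y hxy => Subtype.ext (congrArg (fun w : Mn m => w.1) hxy))
  have hMM : ∀ n m, n ≤ m → #(Mn n) ≤ #(Mn m) := fun n m hnm =>
    mk_le_of_injective (f := fun x : Mn n => (⟨x.1, x.2.trans hnm⟩ : Mn m))
      (fun x y hxy => Subtype.ext (congrArg (fun w : Mn m => w.1) hxy))
  let N : ∀ n, List (Sx κ) → Kn n → Set P := fun n l x => inter c (bl l : Set (Sx κ)) x.1
  let D : ℕ → List (Sx κ) → Set P := fun m l => {q | ∃ n, q ∈ AtLeast (Mn m) (N n l)}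
  have hZ : ∀ n, #((Kn n → Set P) × Set P) ≤ κ := by
    intro n
    rw [mk_prod, lift_id, lift_id]
    refine mul_le_of_le hκ.le ?_ ?_
    · have h1 : #(Kn n → Set P) = 2 ^ (#P * #(Kn n)) := by
        rw [power_mul]
        simp
      rw [h1]
      exact (hstrong _ (mul_lt_of_lt hκ.le hP ((hKM n n le_rfl).trans_lt (L.small n)))).le
    · rw [mk_set]
      exact (hstrong _ hP).le
  obtain ⟨X, hX, hXc⟩ := chang_family hC (fun n => (Kn n → Set P) × Set P) hZ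
    (fun n l => (N n l, D n l))
  -- the generic condition
  obtain ⟨p, hp0, hpD⟩ := meet_set hσ
    (⋃ n, (Prod.snd '' {z : (Kn n → Set P) × Set P | ∃ l : List (Sx κ), (∀ a ∈ l, a ∈ X) ∧
      (N n l, D n l) = z})) (countable_iUnion fun n => (hXc n).image _) (by
      intro E hE
      obtain ⟨n, hn⟩ := mem_iUnion.1 hE
      obtain ⟨_, ⟨l, _, rfl⟩, rfl⟩ := hn
      rintro q ⟨k, hk⟩ r hr
      exact ⟨k, down_atLeast _ hk _ hr⟩) p0 (by
      intro E hE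
      obtain ⟨n, hn⟩ := mem_iUnion.1 hE
      obtain ⟨_, ⟨l, _, rfl⟩, rfl⟩ := hn
      intro r hr
      obtain ⟨q, hq, k, hk⟩ := dense_level (M := Mn n) hκ mk_Kx hP (L.small n) L.lev (hbl l) r hr
      exact ⟨q, hq, k, hk⟩)
  have hpD' : ∀ n (l : List (Sx κ)), (∀ a ∈ l, a ∈ X) → ∃ k, p ∈ AtLeast (Mn n) (N k l) :=
    fun n l hl => hpD _ (mem_iUnion.2 ⟨n, _, ⟨l, hl, rfl⟩, rfl⟩)
  -- the countable set of names
  let Zs : ∀ n, Set (Kn n → Set P) := fun n =>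
    {z | ∃ l : List (Sx κ), (∀ a ∈ l, a ∈ X) ∧ N n l = z}
  have hZs : ∀ n, Countable (Zs n) := by
    intro n
    refine ((hXc n).image Prod.fst).mono ?_
    rintro z ⟨l, hl, rfl⟩
    exact ⟨(N n l, D n l), ⟨l, hl, rfl⟩, rfl⟩
  let T : X → Set (ℕ × Σ n, Zs n) := fun α => {t | (∀ (x : Kn t.2.1), ∀ s ≤ p,
    s ∈ meets (t.2.2.1 x) → s ∈ meets (c x.1 (h α.1).1)) ∧ p ∈ AtLeast (Mn t.1) t.2.2.1}
  obtain ⟨E, Y, hY, hE, hEY⟩ := exists_pseudo hp (X := X) hX (fun t : ℕ × Σ n, Zs n => t.1) T (by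
    intro b m
    let l : List (Sx κ) := b.toList.map Subtype.val
    have hl : ∀ a ∈ l, a ∈ X := by
      intro a ha
      obtain ⟨α, _, rfl⟩ := List.mem_map.1 ha
      exact α.2
    obtain ⟨k, hk⟩ := hpD' m l hl
    refine ⟨(m, ⟨k, N k l, l, hl, rfl⟩), le_rfl, fun α hα => ⟨fun x s _ hs => ?_, hk⟩⟩
    have hs' : s ∈ meets (inter c (bl l : Set (Sx κ)) x.1) := hs
    refine mem_meets_inter.1 hs' _ ?_
    simp only [bl, Finset.mem_coe, List.mem_toFinset, List.mem_map]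
    exact ⟨α.1, List.mem_map.2 ⟨α, Finset.mem_toList.2 hα, rfl⟩, rfl⟩)
  obtain ⟨α1, hα1⟩ : Y.Nonempty := by
    rw [← nonempty_coe_sort, ← mk_ne_zero_iff, hY]
    exact (aleph_pos 1).ne'
  have hEat : ∀ t ∈ E, p ∈ AtLeast (Mn t.1) t.2.2.1 := fun t ht => (hEY α1 hα1 ht).2
  -- the levels are unbounded
  have hunb : ∀ n0 i, ∃ t ∈ E, i ≤ t.1 ∧ n0 < t.2.1 := by
    intro n0 i
    have h1 : #P * #(Mn n0) < κ := mul_lt_of_lt hκ.le hP (L.small n0)
    obtain ⟨m1, hm1⟩ := L.cof _ (hstrong _ h1)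
    obtain ⟨t, ht, ht1⟩ := hE (max i m1)
    refine ⟨t, ht, (le_max_left _ _).trans ht1, ?_⟩
    by_contra hc
    rw [not_lt] at hc
    have h2 := le_of_atLeast (hEat t ht)
    have h3 : #(Mn t.1) ≤ #P * #(Mn n0) := h2.trans (mul_le_mul' le_rfl (hKM _ _ hc))
    have h4 : #(Mn m1) ≤ #(Mn t.1) := hMM _ _ ((le_max_right _ _).trans ht1)
    exact absurd (hm1.trans (h4.trans h3)) (not_le.2 (cantor _))
  choose f hfE hf1 hf2 using hunb
  let t : ℕ → ℕ × Σ n, Zs n := fun i => Nat.rec (f 0 0) (fun i t => f t.2.1 (i + 1)) i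
  have htE : ∀ i, t i ∈ E := by
    intro i
    cases i with
    | zero => exact hfE 0 0
    | succ i => exact hfE _ _
  have hti : ∀ i, i ≤ (t i).1 := by
    intro i
    cases i with
    | zero => exact Nat.zero_le _
    | succ i => exact hf1 _ _
  have htm : StrictMono fun i => (t i).2.1 := strictMono_nat_of_lt_succ fun i => hf2 _ _
  let A : Kx κ → Set P := fun x =>
    {s | ∃ t ∈ E, ∃ hx : L.lev x = t.2.1, s ∈ meets (t.2.2.1 ⟨x, hx⟩)}
  have hAd : ∀ x, Down (A x) := by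
    rintro x s ⟨u, hu, hx, hs⟩ r hr
    exact ⟨u, hu, hx, down_meets _ _ hs _ hr⟩
  refine ⟨p, hp0, A, (fun α : X => (h α.1).1) '' Y, ?_, ?_, ?_⟩
  · refine atLeast_of_dense fun q hq => ?_
    obtain ⟨r, hr, hrD⟩ := meet_nat hσ
      (fun i => {r | ∃ R : Mn (t i).1 → Kn (t i).2.1 → Set P, Inj r R (t i).2.2.1})
      (fun i r ⟨R, hR⟩ s hs => ⟨R, hR.mono hs⟩) q (by
        intro i s hs
        obtain ⟨r, hr, R, hR⟩ := exists_inj (hEat _ (htE i)) s (hs.trans hq)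
        exact ⟨r, hr, R, hR⟩)
    choose R hR using hrD
    let W : ℕ → Kx κ → Kx κ → Set P := fun i k x =>
      {s | ∃ (hk : L.lev k ≤ (t i).1) (hx : L.lev x = (t i).2.1), s ∈ R i ⟨k, hk⟩ ⟨x, hx⟩}
    refine ⟨r, hr, Inj.atLeast (T := fun k x => W (L.lev k) k x) ⟨?_, ?_, ?_, ?_, ?_⟩⟩
    · rintro k x s ⟨hk, hx, hs⟩ u hu
      exact ⟨hk, hx, (hR _).down _ _ _ hs _ hu⟩
    · intro k q' hq'
      obtain ⟨s, hs, x, hx⟩ := (hR (L.lev k)).tot ⟨k, hti _⟩ q' hq'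
      exact ⟨s, hs, x.1, hti _, x.2, hx⟩
    · rintro s hs k x x' ⟨hk, hx, h1⟩ ⟨hk', hx', h2⟩
      have h3 := (hR (L.lev k)).uniq s hs _ _ _ h1 h2
      exact congrArg (fun w : Kn (t (L.lev k)).2.1 => w.1) h3
    · rintro s hs k k' x h1 h2
      have h3 : L.lev k = L.lev k' := by
        obtain ⟨_, hx, _⟩ := h1
        obtain ⟨_, hx', _⟩ := h2
        exact htm.injective (hx.symm.trans hx')
      have h1' : s ∈ W (L.lev k) k x := h1
      rw [h3] at h1'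
      obtain ⟨hk, hx, h4⟩ := h1'
      obtain ⟨hk', hx', h5⟩ := h2
      have h6 := (hR (L.lev k')).inj s hs _ _ _ h4 h5
      exact congrArg (fun w : Mn (t (L.lev k')).1 => w.1) h6
    · rintro s hs k x ⟨hk, hx, h1⟩
      refine meets_of_mem ⟨t (L.lev k), htE _, hx, ?_⟩
      exact (hR _).sub s hs _ _ h1
  · rw [mk_image_eq (fun a b hab => Subtype.ext (h.injective (Subtype.ext hab)))]
    exact hY
  · rintro x _ ⟨α, hα, rfl⟩ s hs hx
    refine meets_of_dense fun q hq => ?_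
    obtain ⟨u, hu, v, hv, hx', h1⟩ := exists_of_meets (hAd x) (down_meets _ _ hx _ hq)
    exact ⟨u, hu, (hEY α hα hv).1 ⟨x, hx'⟩ u (hu.trans (hq.trans hs)) h1⟩

/-- `R_κ(ℵ₁)` in the extension -/
theorem relationR (hκ : ℵ₀ < κ) (hcof : κ.ord.cof = ℵ₀)
    (hstrong : ∀ ν < κ, (2 : Cardinal.{0}) ^ ν < κ) (hC : Chang κ ℵ₀) (hp : PseudoInt)
    (hσ : SigmaClosed P) (hP : #P < κ) (p : P) :
    p ∈ RelationR P (Kx κ) (Sx κ) (ℵ_ 1 : Cardinal.{0}).ord.ToType := by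
  intro c q hq hh
  obtain ⟨h1, h2⟩ := hh
  have hno : NoProd κ q c := by
    intro r hr A hA B hB
    by_contra hc
    push Not at hc
    obtain ⟨g⟩ : Nonempty (Sx κ ↪ B) := by
      rw [← Cardinal.le_def, mk_Sx]
      exact hB
    refine h1 r hr (mem_fex.2 fun s hs => ⟨s, le_rfl, A, mem_fex.2 fun t ht =>
      ⟨t, le_rfl, fun y => fground (y ∈ B), down_atLeast _ hA _ (ht.trans hs), ?_, ?_⟩⟩)
    · exact atLeast_ground (fun y => (g y).1) (fun a b hab => g.injective (Subtype.ext hab))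
        (fun y => meets_of_mem (g y).2)
    · refine fun x y => mem_fimp.2 fun u hu huu => ⟨u, le_rfl, fun v hv hvc => ?_⟩
      obtain ⟨_, _, _, hy, _⟩ := huu.2 u le_rfl
      exact hc y hy x v (hv.trans (hu.trans (ht.trans hs))) (down_meets _ _ huu.1 _ hv) hvc
  obtain ⟨r, hr, A, B, hA, hB, hAB⟩ := exists_prod hκ hcof hstrong hC hp hσ hP hno
  obtain ⟨g⟩ : Nonempty ((ℵ_ 1 : Cardinal.{0}).ord.ToType ↪ B) := by
    rw [← Cardinal.le_def, mk_ord_toType]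
    exact hB.ge
  refine h2 r hr (mem_fex.2 fun s hs => ⟨s, le_rfl, A, mem_fex.2 fun t ht =>
    ⟨t, le_rfl, fun y => fground (y ∈ B), down_atLeast _ hA _ (ht.trans hs), ?_, ?_⟩⟩)
  · exact atLeast_ground (fun y => (g y).1) (fun a b hab => g.injective (Subtype.ext hab))
      (fun y => meets_of_mem (g y).2)
  · refine fun x y => mem_fimp.2 fun u hu huu => ⟨u, le_rfl, ?_⟩
    obtain ⟨_, _, _, hy, _⟩ := huu.2 u le_rfl
    exact hAB x y hy u (hu.trans (ht.trans hs)) huu.1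

end

end Pool.Agent.U72.Pol
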