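import Pool.Agent.U72.Pol.Prod

/-!
# Names for pseudointersections

`Q` satisfies the countable chain condition and forces Martin's axiom for the set `Ux` of pairs of
finite sets.  Every named family of `ℵ₁` sets of natural numbers with the finite intersection
property has a named pseudointersection, and for uncountably many members of the family the same
finite set of exceptions works.
-/

set_option autoImplicit false

namespace Pool.Agent.U72.Pol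

open Cardinal Set Pool.Agent.Helper669.Forcing Pool.Agent.W684.FM
open Pool.Agent.W910.FC (exists_rec)

/-- the set of the conditions for adding a pseudointersection -/
abbrev Ux : Type := Finset ℕ × Finset Om1

section

variable {Q : Type} [Preorder Q]

/-- the ordering of the conditions for a pseudointersection -/
def psR (T : Om1 → ℕ → Set Q) (v u : Ux) : Set Q :=
  {q | u.1 ⊆ v.1 ∧ u.2 ⊆ v.2 ∧ ∀ t ∈ v.1, t ∉ u.1 → ∀ α ∈ u.2, q ∈ meets (T α t)}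

theorem down_psR (T : Om1 → ℕ → Set Q) (v u : Ux) : Down (psR T v u) :=
  fun _ hp _ hq => ⟨hp.1, hp.2.1, fun t ht ht' α hα => down_meets _ _ (hp.2.2 t ht ht' α hα) _ hq⟩

theorem meets_psR {T : Om1 → ℕ → Set Q} {v u : Ux} {q : Q} :
    q ∈ meets (psR T v u) ↔ q ∈ psR T v u := by
  refine ⟨fun h => ?_, fun h => meets_of_mem h⟩
  obtain ⟨r, _, hr⟩ := exists_of_meets (down_psR T v u) h
  refine ⟨hr.1, hr.2.1, fun t ht ht' α hα => meets_of_dense fun s hs => ?_⟩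
  obtain ⟨r', hr', h'⟩ := exists_of_meets (down_psR T v u) (down_meets _ _ h _ hs)
  exact ⟨r', hr', h'.2.2 t ht ht' α hα⟩

/-- the preorder of the conditions for a pseudointersection satisfies the countable chain
condition -/
theorem ccc_psR (hQ : PCCC Q) (T : Om1 → ℕ → Set Q) (q0 : Q) : q0 ∈ CCCN (psR T) := by
  classical
  intro Z f
  refine mem_fimp.2 fun q hq hh => ?_
  obtain ⟨hZ, hf⟩ := hh
  have h1 : ∀ a : Om1, ∃ r ≤ q, ∃ b, a < b ∧ r ∈ meets (Z b) ∧ ∃ x, r ∈ meets (f b x) := by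
    intro a
    obtain ⟨r, hr, b, hab, hb⟩ := mem_fex.1 (hZ a) q le_rfl
    obtain ⟨s, hs, x, hx⟩ := mem_fex.1 (hf.1 b) r hr
    exact ⟨s, hs.trans hr, b, hab, down_meets _ _ hb _ hs, x, hx⟩
  choose r hr b hab hb x hx using h1
  -- the set of the values of `b` is uncountable
  have hunc : ¬ (range b).Countable := by
    intro hc
    obtain ⟨a, ha⟩ := om_bound hc
    exact lt_asymm (hab a) (ha _ (mem_range_self a))
  have hcard : #(Finset ℕ) * ℵ₀ < #(range b) := by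
    have h2 : #(Finset ℕ) * ℵ₀ = ℵ₀ := by simp
    rw [h2]
    by_contra hc
    rw [not_lt] at hc
    exact hunc (le_aleph0_iff_set_countable.1 hc)
  have hsec : ∀ y : range b, ∃ a, b a = y.1 := fun y => y.2
  choose a ha using hsec
  obtain ⟨y, y', hne, hz, s, hs, hs'⟩ := hQ.exists_compat_same hcard (fun y => r (a y))
    (fun y => (x (a y)).1)
  have hbne : b (a y) ≠ b (a y') := by
    rw [ha, ha]
    exact fun h => hne (Subtype.ext h)
  refine ⟨s, hs.trans (hr _), ?_⟩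
  refine mem_fex.2 fun s1 hs1 => ⟨s1, le_rfl, b (a y), mem_fex.2 fun s2 hs2 =>
    ⟨s2, le_rfl, b (a y'), hbne, ?_, ?_, ?_⟩⟩
  · exact down_meets _ _ (hb (a y)) _ (hs2.trans (hs1.trans hs))
  · exact down_meets _ _ (hb (a y')) _ (hs2.trans (hs1.trans hs'))
  · refine mem_fex.2 fun s3 hs3 => ⟨s3, le_rfl, x (a y), mem_fex.2 fun s4 hs4 =>
      ⟨s4, le_rfl, x (a y'), ?_, ?_, ?_⟩⟩
    · exact down_meets _ _ (hx (a y)) _ (hs4.trans (hs3.trans (hs2.trans (hs1.trans hs))))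
    · exact down_meets _ _ (hx (a y')) _ (hs4.trans (hs3.trans (hs2.trans (hs1.trans hs'))))
    · refine mem_fex.2 fun s5 _ => ⟨s5, le_rfl, ((x (a y)).1, (x (a y)).2 ∪ (x (a y')).2),
        meets_of_mem ⟨Finset.Subset.refl _, Finset.subset_union_left, ?_⟩,
        meets_of_mem ⟨?_, Finset.subset_union_right, ?_⟩⟩
      · intro t ht ht'
        exact absurd ht ht'
      · show (x (a y')).1 ⊆ (x (a y)).1
        rw [show (x (a y)).1 = (x (a y')).1 from hz]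
      · intro t ht ht'
        have ht1 : t ∈ (x (a y)).1 := ht
        rw [show (x (a y)).1 = (x (a y')).1 from hz] at ht1
        exact absurd ht1 ht'

theorem exists_pseudo_name (hQ : PCCC Q) (hMA : ∀ q : Q, q ∈ MartinHolds Q Ux)
    (T : Om1 → ℕ → Set Q) (ht : ℕ → ℕ) {q0 : Q}
    (h : ∀ (b : Finset Om1) (m : ℕ), ∀ q ≤ q0, ∃ r ≤ q, ∃ t, m ≤ ht t ∧
      ∀ α ∈ b, r ∈ meets (T α t)) :
    ∃ q1 ≤ q0, ∃ E : ℕ → Set Q, (∀ t, Down (E t)) ∧
      (∀ m, ∀ q ≤ q1, ∃ r ≤ q, ∃ t, m ≤ ht t ∧ r ∈ E t) ∧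
      ∀ α, ∀ q ≤ q1, ∃ r ≤ q, ∃ F0 : Finset ℕ, ∀ t, t ∉ F0 → ∀ s ≤ r, s ∈ E t →
        s ∈ meets (T α t) := by
  classical
  have hpre : q0 ∈ IsPreN (psR T) := by
    refine ⟨fun x => meets_of_mem ⟨Finset.Subset.refl _, Finset.Subset.refl _,
      fun t ht ht' => absurd ht ht'⟩, fun x y z => mem_fimp.2 fun q _ hh => ⟨q, le_rfl, ?_⟩⟩
    obtain ⟨h1, h2⟩ := hh
    rw [meets_psR] at h1 h2 ⊢
    refine ⟨h2.1.trans h1.1, h2.2.1.trans h1.2.1, fun t ht ht' α hα => ?_⟩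
    by_cases h3 : t ∈ y.1
    · exact h2.2.2 t h3 ht' α hα
    · exact h1.2.2 t ht h3 α (h2.2.1 hα)
  let D : Ux → Ux → Set Q := fun i u => fground (i.2 ⊆ u.2 ∧ ∃ t ∈ u.1, i.1.card ≤ ht t)
  have hD : q0 ∈ fall fun i => IsDenseN (psR T) (D i) := by
    intro i u
    refine mem_fex.2 fun q hq => ?_
    obtain ⟨r, hr, t, ht1, ht2⟩ := h u.2 i.1.card q hq
    refine ⟨r, hr, (insert t u.1, u.2 ∪ i.2), meets_of_mem ⟨Finset.subset_union_right, t,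
      Finset.mem_insert_self _ _, ht1⟩, meets_of_mem ⟨Finset.subset_insert _ _,
      Finset.subset_union_left, fun t' ht' ht'' α hα => ?_⟩⟩
    rcases Finset.mem_insert.1 ht' with h3 | h3
    · rw [h3]
      exact ht2 α hα
    · exact absurd h3 ht''
  obtain ⟨q1, hq1, h1⟩ := mem_fimp.1 (hMA q0 (psR T) D) q0 le_rfl ⟨hpre, ccc_psR hQ T q0, hD⟩
  obtain ⟨q2, hq2, F, hF, hFD⟩ := mem_fex.1 h1 q1 le_rfl
  obtain ⟨-, -, hF2⟩ := hF
  refine ⟨q2, hq2.trans hq1, fun t => {q | ∃ u : Ux, t ∈ u.1 ∧ q ∈ meets (F u)}, ?_, ?_, ?_⟩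
  · rintro t q ⟨u, h3, h4⟩ r hr
    exact ⟨u, h3, down_meets _ _ h4 _ hr⟩
  · intro m q hq
    obtain ⟨r, hr, u, hu, hu2⟩ := mem_fex.1 (hFD (Finset.range m, ∅)) q hq
    obtain ⟨_, _, _, hu3, _⟩ := hu2 r le_rfl
    obtain ⟨-, t, ht1, ht2⟩ := hu3
    rw [Finset.card_range] at ht2
    exact ⟨r, hr, t, ht2, u, ht1, hu⟩
  · intro α q hq
    obtain ⟨r, hr, u, hu, hu2⟩ := mem_fex.1 (hFD (∅, {α})) q hq
    obtain ⟨_, _, _, hu3, _⟩ := hu2 r le_rfl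
    have hα : α ∈ u.2 := hu3.1 (Finset.mem_singleton_self α)
    refine ⟨r, hr, u.1, fun t htu s hs hsE => ?_⟩
    obtain ⟨v, htv, hv⟩ := hsE
    refine meets_of_dense fun s' hs' => ?_
    obtain ⟨s1, hs1, h3⟩ := mem_fimp.1 (hF2 u v) s' (hs'.trans (hs.trans (hr.trans hq)))
      ⟨down_meets _ _ hu _ (hs'.trans hs), down_meets _ _ hv _ hs'⟩
    obtain ⟨s2, hs2, z, -, hz1, hz2⟩ := mem_fex.1 h3 s1 le_rfl
    rw [meets_psR] at hz1 hz2
    exact ⟨s2, hs2.trans hs1, hz1.2.2 t (hz2.1 htv) htu α hα⟩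

/-- for uncountably many members of the family the same finite set of exceptions works -/
theorem exists_uncountable (hQ : PCCC Q) (T : Om1 → ℕ → Set Q) (E : ℕ → Set Q) {q1 : Q}
    (h : ∀ α, ∀ q ≤ q1, ∃ r ≤ q, ∃ F0 : Finset ℕ, ∀ t, t ∉ F0 → ∀ s ≤ r, s ∈ E t →
        s ∈ meets (T α t)) :
    ∃ q2 ≤ q1, ∃ F0 : Finset ℕ, ∀ q ≤ q2, ∀ a : Om1, ∃ r ≤ q, ∃ α, a < α ∧
      ∀ t, t ∉ F0 → ∀ s ≤ r, s ∈ E t → s ∈ meets (T α t) := by
  classical
  choose r hr F0 hF0 using fun α => h α q1 le_rfl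
  obtain ⟨F, hF⟩ : ∃ F : Finset ℕ, ¬ {α | F0 α = F}.Countable := by
    by_contra hc
    push Not at hc
    have h1 : (Set.univ : Set Om1) ⊆ ⋃ F : Finset ℕ, {α | F0 α = F} :=
      fun α _ => mem_iUnion.2 ⟨F0 α, rfl⟩
    have h2 := (countable_iUnion hc).mono h1
    rw [← le_aleph0_iff_set_countable, mk_univ, mk_ord_toType] at h2
    exact absurd h2 (not_le.2 aleph0_lt_aleph_one)
  by_contra hcon
  push Not at hcon
  let φ : Set Q := {q | q ≤ q1 ∧ ∃ a : Om1, ∀ r ≤ q, ∀ α, a < α →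
    ∃ t, t ∉ F ∧ ∃ s ≤ r, s ∈ E t ∧ s ∉ meets (T α t)}
  obtain ⟨A, hA1, hA2, hA3⟩ := exists_predense hQ φ (by
    rintro q ⟨h1, a, h2⟩ r hr
    exact ⟨hr.trans h1, a, fun s hs => h2 s (hs.trans hr)⟩)
  have h1 : ∀ z : A, ∃ a : Om1, ∀ r ≤ z.1, ∀ α, a < α →
      ∃ t, t ∉ F ∧ ∃ s ≤ r, s ∈ E t ∧ s ∉ meets (T α t) := fun z => (hA2 z.2).2
  choose a ha using h1
  have hAc : Countable A := hA1.to_subtype
  obtain ⟨b, hb⟩ := om_bound (countable_range a)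
  obtain ⟨α, hα, hbα⟩ := om_unb hF b
  have hα' : F0 α = F := hα
  obtain ⟨q, hq, c, hc⟩ := hcon (r α) (hr α) F
  obtain ⟨z, hz, s, hs1, hs2⟩ := hA3 q ⟨hq.trans (hr α), c, hc⟩
  obtain ⟨t, htF, s', hs', h2, h3⟩ := ha ⟨z, hz⟩ s hs2 α
    ((hb _ (mem_range_self _)).trans hbα)
  exact h3 (hF0 α t (by rw [hα']; exact htF) s' (hs'.trans (hs1.trans hq)) h2)

/-- a named uncountable subset of `ω₁` contains a named copy of `ω₁` -/
theorem exists_blocks (hQ : PCCC Q) (Y : Om1 → Set Q) (hY : ∀ α, Down (Y α)) {q2 : Q}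
    (h : ∀ q ≤ q2, ∀ a : Om1, ∃ r ≤ q, ∃ α, a < α ∧ r ∈ Y α) :
    ∃ R : Om1 → Om1 → Set Q, Inj q2 R Y ∧ ∀ a α, R a α ⊆ Y α := by
  classical
  have h1 : ∀ a : Om1, ∃ b : Om1, ∀ q ≤ q2, ∃ r ≤ q, ∃ α, a < α ∧ α < b ∧ r ∈ Y α := by
    intro a
    obtain ⟨A, hA1, hA2, hA3⟩ := exists_predense hQ {q | ∃ α, a < α ∧ q ∈ Y α} (by
      rintro q ⟨α, h1, h2⟩ r hr
      exact ⟨α, h1, hY α _ h2 _ hr⟩)
    have h2 : ∀ z : A, ∃ α, a < α ∧ z.1 ∈ Y α := fun z => hA2 z.2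
    choose α hα1 hα2 using h2
    have hAc : Countable A := hA1.to_subtype
    obtain ⟨b, hb⟩ := om_bound (countable_range α)
    refine ⟨b, fun q hq => ?_⟩
    obtain ⟨r, hr, β, hβ, hrβ⟩ := h q hq a
    obtain ⟨z, hz, s, hs1, hs2⟩ := hA3 r ⟨β, hβ, hrβ⟩
    exact ⟨s, hs1.trans hr, α ⟨z, hz⟩, hα1 _, hb _ (mem_range_self _),
      hY _ _ (hα2 ⟨z, hz⟩) _ hs2⟩
  choose g hg using h1
  have hne : Nonempty Om1 := by
    obtain ⟨a, _⟩ := om_bound (L := ∅) countable_empty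
    exact ⟨a⟩
  obtain ⟨γ, -, hγ⟩ := exists_rec (S := Om1) (fun s t => g s < t) (fun _ _ => True) (by
    intro i F _ _
    obtain ⟨a, ha⟩ := om_bound ((countable_Iio_om i).image fun j => g (F j))
    exact ⟨a, trivial, fun j hj => ha _ ⟨j, hj, rfl⟩⟩)
  have hinj : ∀ a b α, γ a < α → α < g (γ a) → γ b < α → α < g (γ b) → a = b := by
    intro a b α h1 h2 h3 h4
    rcases lt_trichotomy a b with h | h | h
    · exact absurd (h2.trans (hγ a b h)) (not_lt.2 h3.le)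
    · exact h
    · exact absurd (h4.trans (hγ b a h)) (not_lt.2 h1.le)
  refine ⟨fun a α => {q | q ∈ Y α ∧ γ a < α ∧ α < g (γ a) ∧ ∀ β, γ a < β → β < α →
    ∀ r ≤ q, r ∉ Y β}, ⟨?_, ?_, ?_, ?_, ?_⟩, fun a α q hq => hq.1⟩
  · rintro a α q ⟨h1, h2, h3, h4⟩ r hr
    exact ⟨hY _ _ h1 _ hr, h2, h3, fun β h5 h6 s hs => h4 β h5 h6 s (hs.trans hr)⟩
  · intro a q hq
    let W : Set Om1 := {α | γ a < α ∧ α < g (γ a) ∧ ∃ r ≤ q, r ∈ Y α}
    have hW : W.Nonempty := by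
      obtain ⟨r, hr, α, h1, h2, h3⟩ := hg (γ a) q hq
      exact ⟨α, h1, h2, r, hr, h3⟩
    obtain ⟨h1, h2, r, hr, h3⟩ := wellFounded_lt.min_mem W hW
    refine ⟨r, hr, wellFounded_lt.min W hW, h3, h1, h2, fun β hβ hβ' s hs h4 => ?_⟩
    exact wellFounded_lt.not_lt_min W (x := β) ⟨hβ, hβ'.trans h2, s, hs.trans hr, h4⟩ hβ'
  · rintro s _ a α α' ⟨h1, h2, h3, h4⟩ ⟨h1', h2', h3', h4'⟩
    rcases lt_trichotomy α α' with h | h | h
    · exact (h4' α h2 h s le_rfl h1).elim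
    · exact h
    · exact (h4 α' h2' h s le_rfl h1').elim
  · rintro s _ a a' α ⟨_, h2, h3, _⟩ ⟨_, h2', h3', _⟩
    exact hinj a a' α h2 h3 h2' h3'
  · rintro s _ a α ⟨h1, -, -, -⟩
    exact meets_of_mem h1

end

end Pool.Agent.U72.Pol
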