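import Pool.Agent.W910.FC.Product
import Pool.Agent.U72.Pol.Main

/-!
# The product of a `σ`-closed and a ccc preorder

Countably many dense subsets of the product are met, below one condition of the `σ`-closed factor,
by dense subsets of the ccc factor.
-/

set_option autoImplicit false

namespace Pool.Agent.U72.Pol

open Cardinal Set Pool.Agent.Helper669.Forcing
open Pool.Agent.W684.FM (PCCC Om1)
open Pool.Agent.W910.FC (Dec exists_dec exists_rec)

section

variable {C Q : Type} [Preorder C] [Preorder Q]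

theorem countable_Iio_om (i : Om1) : (Set.Iio i).Countable := by
  rw [← le_aleph0_iff_set_countable, ← Order.lt_succ_iff, succ_aleph0]
  exact mk_Iio_ord i

theorem om_bound {L : Set Om1} (hL : L.Countable) : ∃ a : Om1, ∀ x ∈ L, x < a := by
  by_contra hc
  push Not at hc
  have h1 : (Set.univ : Set Om1) ⊆ ⋃ x ∈ L, Set.Iic x := by
    intro a _
    obtain ⟨x, hx, h⟩ := hc a
    exact mem_biUnion hx h
  have h2 : (⋃ x ∈ L, Set.Iic x).Countable := by
    refine hL.biUnion fun x _ => ?_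
    rw [← Iio_insert]
    exact (countable_Iio_om x).insert x
  have h3 := h2.mono h1
  rw [← le_aleph0_iff_set_countable, mk_univ, mk_ord_toType] at h3
  exact absurd h3 (not_le.2 aleph0_lt_aleph_one)

theorem om_unb {L : Set Om1} (hL : ¬ L.Countable) (a : Om1) : ∃ x ∈ L, a < x := by
  by_contra hc
  push Not at hc
  refine hL (((countable_Iio_om a).insert a).mono ?_)
  intro x hx
  rw [Iio_insert]
  exact hc x hx

theorem SigmaClosed.chain (hC : SigmaClosed C) (i : Om1) (F : Om1 → C) (c0 : C)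
    (hF : ∀ j k, j < k → k < i → F k ≤ F j) (h0 : ∀ j, j < i → F j ≤ c0) :
    ∃ c ≤ c0, ∀ j, j < i → c ≤ F j := by
  classical
  rcases (Set.Iio i).eq_empty_or_nonempty with he | hne
  · refine ⟨c0, le_rfl, fun j hj => ?_⟩
    have : j ∈ Set.Iio i := hj
    rw [he] at this
    exact this.elim
  obtain ⟨e, he⟩ := (countable_Iio_om i).exists_eq_range hne
  have hei : ∀ n, e n < i := fun n => by
    have : e n ∈ Set.Iio i := he ▸ mem_range_self n
    exact this
  let m : ℕ → Om1 := fun n => Nat.rec (e 0) (fun n a => max a (e (n + 1))) n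
  have hm0 : m 0 = e 0 := rfl
  have hms : ∀ n, m (n + 1) = max (m n) (e (n + 1)) := fun n => rfl
  have hmi : ∀ n, m n < i := by
    intro n
    induction n with
    | zero => exact hei 0
    | succ n ih => rw [hms]; exact max_lt ih (hei _)
  have hmono : ∀ n, m n ≤ m (n + 1) := fun n => by rw [hms]; exact le_max_left _ _
  obtain ⟨c, hc⟩ := hC (fun n => F (m n)) (fun n => by
    rcases (hmono n).eq_or_lt with h | h
    · show F (m (n + 1)) ≤ F (m n)
      rw [← h]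
    · exact hF _ _ h (hmi (n + 1)))
  refine ⟨c, (hc 0).trans (h0 _ (hmi 0)), fun j hj => ?_⟩
  have hj' : j ∈ range e := he ▸ hj
  obtain ⟨n, rfl⟩ := hj'
  have h1 : e n ≤ m n := by
    cases n with
    | zero => exact le_rfl
    | succ n => rw [hms]; exact le_max_right _ _
  rcases h1.eq_or_lt with h | h
  · rw [h]
    exact hc n
  · exact (hc n).trans (hF _ _ h (hmi n))

theorem exists_dense_dec (hC : SigmaClosed C) (hQ : PCCC Q) (φ : Set (C × Q)) (hφ : Down φ)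
    (c0 : C) : ∃ c ≤ c0, ∀ q, ∃ q' ≤ q, Dec φ (c, q') := by
  classical
  by_contra hcon
  push Not at hcon
  have : Nonempty (C × Q) := by
    obtain ⟨p, _⟩ := hcon c0 le_rfl
    exact ⟨(c0, p)⟩
  obtain ⟨F, hF1, hF2⟩ := exists_rec (S := C × Q)
    (fun s t => t.1 ≤ s.1 ∧ ¬ ∃ r, r ≤ s.2 ∧ r ≤ t.2) (fun _ s => s.1 ≤ c0 ∧ Dec φ s) (by
      intro i F h1 h2
      obtain ⟨q, hq, hqF⟩ := hC.chain i (fun j => (F j).1) c0
        (fun j k hjk hk => (h2 j k hjk hk).1) (fun j hj => (h1 j hj).1)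
      obtain ⟨p, hp⟩ := hcon q hq
      obtain ⟨⟨q', p'⟩, ⟨hq', hp'⟩, hdec⟩ := exists_dec φ (q, p)
      refine ⟨(q', p'), ⟨le_trans hq' hq, hdec⟩, fun j hj => ⟨le_trans hq' (hqF j hj), ?_⟩⟩
      rintro ⟨r, hr1, hr2⟩
      refine hp r (le_trans hr2 hp') ?_
      exact (h1 j hj).2.down hφ (show (q, r) ≤ F j from ⟨hqF j hj, hr1⟩))
  have hinj : Function.Injective fun i => (F i).2 := by
    intro i j h
    by_contra hne
    rcases lt_or_gt_of_ne hne with h1 | h1
    · exact (hF2 i j h1).2 ⟨(F i).2, le_rfl, h.le⟩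
    · exact (hF2 j i h1).2 ⟨(F i).2, h.le, le_rfl⟩
  have h3 : (Set.range fun i => (F i).2).Countable := by
    apply hQ
    rintro _ ⟨i, rfl⟩ _ ⟨j, rfl⟩ hne ⟨r, h4, h5⟩
    have hij : i ≠ j := fun h => hne (by rw [h])
    rcases lt_or_gt_of_ne hij with h1 | h1
    · exact (hF2 i j h1).2 ⟨r, h4, h5⟩
    · exact (hF2 j i h1).2 ⟨r, h5, h4⟩
  have h4 : (Set.univ : Set Om1).Countable := by
    refine Set.countable_of_injective_of_countable_image (f := fun i => (F i).2) hinj.injOn ?_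
    rwa [Set.image_univ]
  rw [← Cardinal.le_aleph0_iff_set_countable, Cardinal.mk_univ, Cardinal.mk_ord_toType] at h4
  exact absurd h4 (not_le.2 Cardinal.aleph0_lt_aleph_one)

theorem easton (hC : SigmaClosed C) (hQ : PCCC Q) (𝒟 : Set (Set (C × Q))) (hc : 𝒟.Countable)
    (hD : ∀ D ∈ 𝒟, Down D) (p0 : C × Q) (hd : ∀ D ∈ 𝒟, ∀ r ≤ p0, ∃ q ≤ r, q ∈ D) :
    ∃ c ≤ p0.1, ∀ D ∈ 𝒟, ∀ q ≤ p0.2, ∃ q' ≤ q, (c, q') ∈ D := by
  obtain ⟨c, hc1, hc2⟩ := meet_set hC
    ((fun D : Set (C × Q) => {c : C | ∀ q ≤ p0.2, ∃ q' ≤ q, (c, q') ∈ D}) '' 𝒟) (hc.image _) (by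
      rintro _ ⟨D, hDD, rfl⟩ c hc c' hc' q hq
      obtain ⟨q', hq', h⟩ := hc q hq
      exact ⟨q', hq', hD D hDD _ h _ ⟨hc', le_rfl⟩⟩) p0.1 (by
      rintro _ ⟨D, hDD, rfl⟩ c hc
      obtain ⟨c', hc', h⟩ := exists_dense_dec hC hQ D (hD D hDD) c
      refine ⟨c', hc', fun q hq => ?_⟩
      obtain ⟨q', hq', h1⟩ := h q
      refine ⟨q', hq', h1.resolve_right fun h2 => ?_⟩
      obtain ⟨r, hr, h3⟩ := hd D hDD (c', q') ⟨hc'.trans hc, hq'.trans hq⟩
      exact h2 r hr h3)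
  exact ⟨c, hc1, fun D hDD => hc2 _ ⟨D, hDD, rfl⟩⟩

end

end Pool.Agent.U72.Pol
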