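import Pool.Agent.U72.Pol.Core2

/-!
# The two polarized relations
-/

set_option autoImplicit false

namespace Pool.Agent.U72.Pol

open Cardinal Set Pool.Agent.Helper669.Forcing Pool.Agent.Helper669.K Pool.Agent.Helper980.G
open Pool.Agent.W684.FM (PCCC Om1 MartinHolds)

section

variable {C Q : Type} [Preorder C] [Preorder Q] {κ : Cardinal.{0}}

/-- `R_κ(ℵ₁)` in the extension by the product -/
theorem relationR2 (hκ : ℵ₀ < κ) (hcof : κ.ord.cof = ℵ₀)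
    (hstrong : ∀ ν < κ, (2 : Cardinal.{0}) ^ ν < κ) (hC : Chang κ ℵ₀)
    (hσ : SigmaClosed C) (hQ : PCCC Q) (hMA : ∀ q : Q, q ∈ MartinHolds Q Ux)
    (hP : #(C × Q) < κ) (p : C × Q) :
    p ∈ RelationR (C × Q) (Kx κ) (Sx κ) (ℵ_ 1 : Cardinal.{0}).ord.ToType := by
  intro c q hq hh
  obtain ⟨h1, h2⟩ := hh
  have hno : NoProd κ q c := by
    intro r hr A hA B hB
    by_contra hc
    push Not at hc
    obtain ⟨g⟩ : Nonempty (Sx κ ↪ B) := by
      rw [← Cardinal.le_def, mk_Sx]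
      exact hB
    refine h1 r hr (mem_fex.2 fun s hs => ⟨s, le_rfl, A, mem_fex.2 fun t ht =>
      ⟨t, le_rfl, fun y => fground (y ∈ B), down_atLeast _ hA _ (ht.trans hs), ?_, ?_⟩⟩)
    · exact atLeast_ground (fun y => (g y).1) (fun a b hab => g.injective (Subtype.ext hab))
        (fun y => meets_of_mem (g y).2)
    · refine fun x y => mem_fimp.2 fun u hu huu => ⟨u, le_rfl, fun v hv hvc => ?_⟩
      obtain ⟨_, _, _, hy, _⟩ := huu.2 u le_rfl
      exact hc y hy x v (hv.trans (hu.trans (ht.trans hs))) (down_meets _ _ huu.1 _ hv) hvc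
  obtain ⟨r, hr, A, B, hA, hB, hAB⟩ := exists_prod2 hκ hcof hstrong hC hσ hQ hMA hP hno
  refine h2 r hr (mem_fex.2 fun s hs => ⟨s, le_rfl, A, mem_fex.2 fun t ht =>
    ⟨t, le_rfl, B, down_atLeast _ hA _ (ht.trans hs), down_atLeast _ hB _ (ht.trans hs), ?_⟩⟩)
  exact fun x y => mem_fimp.2 fun u hu huu =>
    ⟨u, le_rfl, hAB x y u (hu.trans (ht.trans hs)) huu.1 huu.2⟩

end

section

variable {P : Type} [Preorder P]

theorem for_mono {φ ψ φ' ψ' : Set P} {p : P} (h : p ∈ for' φ ψ) (h1 : ∀ q ≤ p, q ∈ φ → q ∈ φ')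
    (h2 : ∀ q ≤ p, q ∈ ψ → q ∈ ψ') : p ∈ for' φ' ψ' := by
  intro q hq hh
  refine h q hq ⟨fun r hr hr' => hh.1 r hr (h1 r (hr.trans hq) hr'),
    fun r hr hr' => hh.2 r hr (h2 r (hr.trans hq) hr')⟩

/-- the image of a named set under a ground model function -/
def img {X Y : Type} (g : X → Y) (A : X → Set P) : Y → Set P :=
  fun y => {s | ∃ x, g x = y ∧ s ∈ meets (A x)}

theorem down_img {X Y : Type} (g : X → Y) (A : X → Set P) (y : Y) : Down (img g A y) :=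
  fun _ ⟨x, h1, h2⟩ _ hr => ⟨x, h1, down_meets _ _ h2 _ hr⟩

theorem atLeast_img {I X Y : Type} {g : X → Y} (hg : Function.Injective g) {A : X → Set P} {p : P}
    (h : p ∈ AtLeast I A) : p ∈ AtLeast I (img g A) := by
  refine atLeast_of_dense fun q hq => ?_
  obtain ⟨r, hr, T, hT⟩ := exists_inj h q hq
  refine ⟨r, hr, Inj.atLeast (T := fun a y => {s | ∃ x, g x = y ∧ s ∈ T a x})
    ⟨?_, ?_, ?_, ?_, ?_⟩⟩
  · rintro a y s ⟨x, h1, h2⟩ t ht
    exact ⟨x, h1, hT.down _ _ _ h2 _ ht⟩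
  · intro a s hs
    obtain ⟨t, ht, x, hx⟩ := hT.tot a s hs
    exact ⟨t, ht, g x, x, rfl, hx⟩
  · rintro s hs a y y' ⟨x, rfl, h2⟩ ⟨x', rfl, h2'⟩
    rw [hT.uniq s hs _ _ _ h2 h2']
  · rintro s hs a a' y ⟨x, h1, h2⟩ ⟨x', h1', h2'⟩
    have h3 : x = x' := hg (h1.trans h1'.symm)
    subst h3
    exact hT.inj s hs _ _ _ h2 h2'
  · rintro s hs a y ⟨x, h1, h2⟩
    exact meets_of_mem ⟨x, h1, hT.sub s hs _ _ h2⟩

/-- The relation `R_κ(ℵ₁)` implies the relation for `κ⁺ × κ⁺`. -/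
theorem relationS_of_relationR {K S I : Type} (hKS : #K ≤ #S) {p : P}
    (h : p ∈ RelationR P K S I) : p ∈ RelationS P S K I := by
  obtain ⟨g⟩ := hKS
  intro c
  refine for_mono (h fun k s => c s (g k)) ?_ ?_
  · intro q _ hq
    refine mem_fex.2 fun q1 hq1 => ?_
    obtain ⟨r, hr, A, hA⟩ := mem_fex.1 hq q1 hq1
    obtain ⟨s, hs, B, hA1, hB1, hAB⟩ := mem_fex.1 hA r le_rfl
    refine ⟨s, hs.trans hr, B, mem_fex.2 fun t ht => ⟨t, le_rfl, img g A,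
      down_atLeast _ hB1 _ ht, atLeast_img g.injective (down_atLeast _ hA1 _ ht), ?_⟩⟩
    refine fun x y => mem_fimp.2 fun u hu huu => ?_
    obtain ⟨v, hv, k, hk, hvk⟩ := exists_of_meets (down_img g A y) huu.2
    obtain ⟨w, hw, h1⟩ := mem_fimp.1 (hAB k x) v (hv.trans (hu.trans ht))
      ⟨hvk, down_meets _ _ huu.1 _ hv⟩
    subst hk
    exact ⟨w, hw.trans hv, h1⟩
  · intro q _ hq
    refine mem_fex.2 fun q1 hq1 => ?_
    obtain ⟨r, hr, A, hA⟩ := mem_fex.1 hq q1 hq1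
    obtain ⟨s, hs, B, hA1, hB1, hAB⟩ := mem_fex.1 hA r le_rfl
    refine ⟨s, hs.trans hr, B, mem_fex.2 fun t ht => ⟨t, le_rfl, img g A,
      down_atLeast _ hB1 _ ht, atLeast_img g.injective (down_atLeast _ hA1 _ ht), ?_⟩⟩
    refine fun x y => mem_fimp.2 fun u hu huu => ?_
    obtain ⟨v, hv, k, hk, hvk⟩ := exists_of_meets (down_img g A y) huu.2
    obtain ⟨w, hw, h1⟩ := mem_fimp.1 (hAB k x) v (hv.trans (hu.trans ht))
      ⟨hvk, down_meets _ _ huu.1 _ hv⟩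
    subst hk
    exact ⟨w, hw.trans hv, h1⟩

end

end Pool.Agent.U72.Pol
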